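import Pool.Agent.H235.Ti.SpecL
import Pool.Graph.R_pool_sql_team_seeded_63374d34.N789.QD.KF

/-! Laplace transform of the wedge kernel (project Ti of helper235, leaf L1, written by helper784). -/

set_option autoImplicit false
set_option linter.unusedVariables false

namespace Pool.Agent.H784.TiL1

open MeasureTheory Set Filter Topology Complex
open Pool.Agent.N275.QD (Rf Kf Gf Gr Hh S_KF)
open scoped Real ENNReal ComplexConjugate
open Pool.Agent.H235.Ti

theorem rf_nonneg {α μ : ℝ} (h0 : 0 < α) (h1 : α < π / 2) (hμ : 0 < μ) : 0 ≤ Rf α μ := by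
  have hpi := Real.pi_pos
  unfold Rf
  apply div_nonneg
  · exact (Real.sinh_pos_iff.2 (by positivity)).le
  · exact (Real.sinh_pos_iff.2 (mul_pos (by linarith) hμ)).le

theorem rf_le {α μ : ℝ} (h0 : 0 < α) (h1 : α < π / 2) (hμ : 0 < μ) :
    Rf α μ ≤ Real.exp (-((π - 2 * α) * μ)) := by
  have hpi := Real.pi_pos
  unfold Rf
  have hs : 0 < Real.sinh ((π - α) * μ) := Real.sinh_pos_iff.2 (mul_pos (by linarith) hμ)
  rw [div_le_iff₀ hs, Real.sinh_eq, Real.sinh_eq]
  have e1 : Real.exp (-((π - 2 * α) * μ)) * ((Real.exp ((π - α) * μ) - Real.exp (-((π - α) * μ))) / 2) =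
      (Real.exp (α * μ) - Real.exp (-((π - 2 * α) * μ) - (π - α) * μ)) / 2 := by
    rw [mul_div_assoc', mul_sub, ← Real.exp_add, ← Real.exp_add]
    congr 2
    · congr 1
      ring
  rw [e1]
  have e2 : Real.exp (-((π - 2 * α) * μ) - (π - α) * μ) ≤ Real.exp (-(α * μ)) := by
    apply Real.exp_le_exp.2
    nlinarith
  linarith

theorem rf_cont {α : ℝ} (h0 : 0 < α) (h1 : α < π / 2) : ContinuousOn (Rf α) (Ioi 0) := by
  have hpi := Real.pi_pos
  unfold Rf
  apply ContinuousOn.div
  · fun_prop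
  · fun_prop
  · intro μ hμ
    exact (Real.sinh_pos_iff.2 (mul_pos (by linarith) hμ)).ne'

theorem sinh_le {x : ℝ} : Real.sinh x ≤ Real.exp x := by
  rw [Real.sinh_eq]
  have := Real.exp_pos x
  have := Real.exp_pos (-x)
  linarith

/-- the factor in `μ` -/
noncomputable def hh (α θ θ' μ : ℝ) : ℝ := Rf α μ * (Real.sinh (θ * μ) * Real.sinh (θ' * μ))

theorem hh_int {α θ θ' : ℝ} (h0 : 0 < α) (h1 : α < π / 2) (hθ : 0 ≤ θ) (hθ1 : θ < π / 2 - α)
    (hθ' : 0 ≤ θ') (hθ1' : θ' < π / 2 - α) : IntegrableOn (hh α θ θ') (Ioi 0) := by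
  have hint : IntegrableOn (fun μ : ℝ => Real.exp (-(π - 2 * α - θ - θ') * μ)) (Ioi 0) :=
    integrableOn_exp_mul_Ioi (by linarith) 0
  refine Integrable.mono' hint ?_ ?_
  · apply ContinuousOn.aestronglyMeasurable _ measurableSet_Ioi
    unfold hh
    apply (rf_cont h0 h1).mul
    fun_prop
  · rw [ae_restrict_iff' measurableSet_Ioi]
    filter_upwards with μ hμ
    have hμ0 : 0 < μ := hμ
    have s1 : 0 ≤ Real.sinh (θ * μ) := Real.sinh_nonneg_iff.2 (by positivity)
    have s2 : 0 ≤ Real.sinh (θ' * μ) := Real.sinh_nonneg_iff.2 (by positivity)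
    have r0 := rf_nonneg h0 h1 hμ0
    unfold hh
    rw [Real.norm_eq_abs, abs_of_nonneg (by positivity)]
    calc Rf α μ * (Real.sinh (θ * μ) * Real.sinh (θ' * μ)) ≤
        Real.exp (-((π - 2 * α) * μ)) * (Real.exp (θ * μ) * Real.exp (θ' * μ)) := by
          apply mul_le_mul (rf_le h0 h1 hμ0) _ (by positivity) (Real.exp_pos _).le
          exact mul_le_mul sinh_le sinh_le s2 (Real.exp_pos _).le
      _ = Real.exp (-(π - 2 * α - θ - θ') * μ) := by
          rw [← Real.exp_add, ← Real.exp_add]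
          congr 1
          ring

theorem kf_abs {μ x : ℝ} (hx : 0 < x) : |Kf μ x| ≤ Kf 0 x := by
  unfold Kf
  rw [← Real.norm_eq_abs]
  have hi : IntegrableOn (fun u : ℝ => Real.exp (-(x * Real.cosh u))) (Ioi 0) :=
    (Pool.Agent.N789.KF.integrable_exp_cosh hx).integrableOn
  refine (norm_integral_le_integral_norm _).trans ?_
  have e : ∀ u : ℝ, Real.exp (-(x * Real.cosh u)) * Real.cos (0 * u) =
      Real.exp (-(x * Real.cosh u)) := by
    intro u
    simp
  simp only [e]
  apply integral_mono_of_nonneg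
  · filter_upwards with u
    exact norm_nonneg _
  · exact hi
  · filter_upwards with u
    rw [norm_mul, Real.norm_eq_abs, abs_of_pos (Real.exp_pos _), Real.norm_eq_abs]
    have := Real.abs_cos_le_one (μ * u)
    nlinarith [Real.exp_pos (-(x * Real.cosh u))]

theorem arg_rot {z : ℂ} {φ : ℝ} (hz : 0 < z.re) (h0 : 0 ≤ arg z + φ) (h1 : arg z + φ < π) :
    arg (Complex.exp ((φ : ℂ) * I) * z) = arg z + φ ∧ ‖Complex.exp ((φ : ℂ) * I) * z‖ = ‖z‖ := by
  have hz0 : z ≠ 0 := by
    rintro rfl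
    simp at hz
  have hn : 0 < ‖z‖ := norm_pos_iff.2 hz0
  constructor
  · have e1 : Complex.exp ((φ : ℂ) * I) * z = ((‖z‖ : ℝ) : ℂ) *
        (Complex.cos ((arg z + φ : ℝ) : ℂ) + Complex.sin ((arg z + φ : ℝ) : ℂ) * I) := by
      conv_lhs => rw [← Complex.norm_mul_exp_arg_mul_I z]
      rw [← Complex.exp_mul_I]
      push_cast
      rw [add_mul, Complex.exp_add]
      ring
    rw [e1, Complex.arg_real_mul _ hn]
    apply Complex.arg_cos_add_sin_mul_I
    exact ⟨by linarith [Real.pi_pos], h1.le⟩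
  · rw [norm_mul, Complex.norm_exp_ofReal_mul_I, one_mul]

/-- the factor in `t` -/
noncomputable def gg (κ a b μ t : ℝ) : ℝ :=
  Real.exp (-(κ ^ 2 * t) - (a ^ 2 + b ^ 2) / (4 * t)) * Kf μ (a * b / (2 * t)) / t

theorem l1 (hKK : Pool.Agent.H235.Ti.S_KK) : Pool.Agent.H235.Ti.S_L1 := by
  intro α φ κ z w hα hφ hφα hκ hz hz0 hz1 hw hw0 hw1
  have hpi := Real.pi_pos
  have hα1 : α < π / 2 := by linarith
  obtain ⟨az, nz⟩ := arg_rot hz hz0 (by linarith)
  obtain ⟨aw, nw⟩ := arg_rot hw hw0 (by linarith)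
  set θ : ℝ := arg z + φ with hθ
  set θ' : ℝ := arg w + φ with hθ'
  set a : ℝ := ‖z‖ with ha
  set b : ℝ := ‖w‖ with hb
  have ha0 : 0 < a := norm_pos_iff.2 (by rintro rfl; simp at hz)
  have hb0 : 0 < b := norm_pos_iff.2 (by rintro rfl; simp at hw)
  -- the double integrand
  set f : ℝ × ℝ → ℝ := fun q => (1 / π ^ 2) * (gg κ a b q.2 q.1 * hh α θ θ' q.2) with hf
  have hG : ∀ t : ℝ, 0 < t → Real.exp (-(κ ^ 2 * t)) * Gr α φ t z w =
      ∫ μ in Ioi (0 : ℝ), f (t, μ) := by
    intro t ht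
    unfold Gr Gf
    rw [az, aw, nz, nw, ← mul_assoc, ← integral_const_mul]
    apply integral_congr_ae
    filter_upwards with μ
    simp only [hf, gg, hh]
    rw [sub_eq_add_neg, Real.exp_add]
    field_simp
  have hfint : Integrable f ((volume.restrict (Ioi (0 : ℝ))).prod (volume.restrict (Ioi (0 : ℝ)))) := by
    have h1 : IntegrableOn (gg κ a b 0) (Ioi 0) := (hKK 0 a b κ ha0 hb0 hκ).1
    have h2 := hh_int hα hα1 hz0 hz1 hw0 hw1
    have h3 : Integrable (fun q : ℝ × ℝ => gg κ a b 0 q.1 * hh α θ θ' q.2)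
        ((volume.restrict (Ioi (0 : ℝ))).prod (volume.restrict (Ioi (0 : ℝ)))) :=
      Integrable.mul_prod h1 h2
    refine Integrable.mono' (h3.const_mul (1 / π ^ 2)) ?_ ?_
    · rw [Measure.prod_restrict]
      apply ContinuousOn.aestronglyMeasurable _ (measurableSet_Ioi.prod measurableSet_Ioi)
      have c1 : ContinuousOn (fun q : ℝ × ℝ => Kf q.2 (a * b / (2 * q.1))) (Ioi 0 ×ˢ Ioi 0) := by
        apply Pool.Agent.N789.KF.part4.comp (f := fun q : ℝ × ℝ => (q.2, a * b / (2 * q.1)))
        · apply ContinuousOn.prodMk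
          · exact continuousOn_snd
          · apply ContinuousOn.div
            · fun_prop
            · fun_prop
            · intro q hq
              have : 0 < q.1 := hq.1
              positivity
        · intro q hq
          have : 0 < q.1 := hq.1
          exact ⟨mem_univ _, by simp only [mem_Ioi]; positivity⟩
      have c2 : ContinuousOn (fun q : ℝ × ℝ => Rf α q.2) (Ioi 0 ×ˢ Ioi 0) :=
        (rf_cont hα hα1).comp continuousOn_snd (fun q hq => hq.2)
      have c3 : ContinuousOn (fun q : ℝ × ℝ => Real.exp (-(κ ^ 2 * q.1) -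
          (a ^ 2 + b ^ 2) / (4 * q.1))) (Ioi 0 ×ˢ Ioi 0) := by
        apply Real.continuous_exp.comp_continuousOn
        apply ContinuousOn.sub
        · fun_prop
        · apply ContinuousOn.div
          · fun_prop
          · fun_prop
          · intro q hq
            have : 0 < q.1 := hq.1
            positivity
      simp only [hf, gg, hh]
      apply ContinuousOn.mul continuousOn_const
      apply ContinuousOn.mul
      · apply ContinuousOn.div (c3.mul c1) continuousOn_fst
        intro q hq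
        exact (show (0 : ℝ) < q.1 from hq.1).ne'
      · apply c2.mul
        fun_prop
    · rw [Measure.prod_restrict, ae_restrict_iff' (measurableSet_Ioi.prod measurableSet_Ioi)]
      filter_upwards with q hq
      have q1 : 0 < q.1 := hq.1
      have q2 : 0 < q.2 := hq.2
      have s1 : 0 ≤ Real.sinh (θ * q.2) := Real.sinh_nonneg_iff.2 (mul_nonneg hz0 q2.le)
      have s2 : 0 ≤ Real.sinh (θ' * q.2) := Real.sinh_nonneg_iff.2 (mul_nonneg hw0 q2.le)
      have r0 := rf_nonneg hα hα1 q2
      have hh0 : 0 ≤ hh α θ θ' q.2 := by unfold hh; positivity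
      simp only [hf]
      rw [norm_mul, norm_mul, Real.norm_eq_abs (hh α θ θ' q.2), abs_of_nonneg hh0,
        Real.norm_eq_abs (1 / π ^ 2), abs_of_pos (by positivity)]
      apply mul_le_mul_of_nonneg_left _ (by positivity)
      apply mul_le_mul_of_nonneg_right _ hh0
      unfold gg
      rw [norm_div, norm_mul, Real.norm_eq_abs, abs_of_pos (Real.exp_pos _), Real.norm_eq_abs,
        Real.norm_eq_abs, abs_of_pos q1]
      apply div_le_div_of_nonneg_right _ q1.le
      apply mul_le_mul_of_nonneg_left _ (Real.exp_pos _).le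
      exact kf_abs (by positivity)
  constructor
  · have h1 := hfint.integral_prod_left
    refine (integrableOn_congr_fun ?_ measurableSet_Ioi).2 h1
    intro t ht
    exact hG t ht
  · have h1 : ∫ t in Ioi (0 : ℝ), Real.exp (-(κ ^ 2 * t)) * Gr α φ t z w =
        ∫ t in Ioi (0 : ℝ), ∫ μ in Ioi (0 : ℝ), f (t, μ) :=
      setIntegral_congr_fun measurableSet_Ioi (fun t ht => hG t ht)
    rw [h1]
    have h2 := integral_integral_swap (f := fun t μ => f (t, μ)) hfint
    rw [h2]
    unfold GH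
    rw [← integral_const_mul]
    apply setIntegral_congr_fun measurableSet_Ioi
    intro μ hμ
    have h3 : ∫ t in Ioi (0 : ℝ), gg κ a b μ t = 2 * Kf μ (κ * a) * Kf μ (κ * b) :=
      (hKK μ a b κ ha0 hb0 hκ).2
    simp only [hf]
    rw [integral_const_mul, integral_mul_const, h3]
    unfold hh
    ring

end Pool.Agent.H784.TiL1
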