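import Pool.Agent.H252.EL.Iface
import Pool.Graph.R_seed8.TH249.Lim

/-!
# EL-RNK: ranks of a projection over the limit at all late stages (helper784 for helper252)
-/

set_option autoImplicit false

noncomputable section

namespace Pool.Agent.H784.ELRNK

open Filter Topology
open scoped ENNReal NNReal Matrix.Norms.L2Operator ComplexOrder
open Pool.Agent.TH249 (Prj K0 Eqv IsPrj)
open Pool.Agent.H188R3 (IsLim)
open Pool.Agent.H252.EL

/-- equivalent projections have the same trace -/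
theorem trM_eqv {A : Type} [CStarAlgebra A] {τ : WeakDual ℂ A} (hτ : τ ∈ TracialStates A)
    {n m : ℕ} {P : Matrix (Fin n) (Fin n) A} {Q : Matrix (Fin m) (Fin m) A} (h : Eqv P Q) :
    trM τ P = trM τ Q := by
  obtain ⟨v, rfl, rfl⟩ := h
  obtain ⟨-, -, htr⟩ := hτ
  unfold trM
  simp only [Matrix.mul_apply, Matrix.conjTranspose_apply, map_sum]
  rw [Finset.sum_comm]
  exact Finset.sum_congr rfl (fun a _ => Finset.sum_congr rfl (fun b _ => htr _ _))

theorem ratio_bd {ρ k n : ℕ} (h : ρ ≤ k * n) : 0 ≤ (ρ : ℝ) / n ∧ (ρ : ℝ) / n ≤ k := by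
  refine ⟨by positivity, div_le_of_le_mul₀ (Nat.cast_nonneg n) (Nat.cast_nonneg k) ?_⟩
  exact_mod_cast h

theorem s_RNK : S_RNK := by
  intro hEX hMASS hPRJ D hF L _ j hL k P hP
  have hG : D.Good := hF.toGood
  have hnt : ∀ i, Nontrivial (D.A i) := (hEX D hG).1
  obtain ⟨N, hN⟩ := Pool.Agent.TH249.lim1 hL P hP
  refine ⟨N, fun i hi => ?_⟩
  obtain ⟨P', hP', hPP'⟩ := hN i hi
  obtain ⟨ρ, hρ, hPc⟩ := (hPRJ D hG i k).1 P' hP'
  obtain ⟨hcp, htr⟩ := (hPRJ D hG i k).2 ρ hρ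
  have hcpm : IsPrj ((D.cp i k ρ).map (j i)) := hcp.map (j i)
  have hE : Eqv P ((D.cp i k ρ).map (j i)) :=
    Pool.Agent.TH249.Eqv.trans hP hcpm hPP' (hPc.map (j i))
  have htrP : ∀ τ ∈ TracialStates L, trM τ P =
      ∑ b, ((ρ b : ℝ) / D.n i : ℝ) * τ (j i (D.one i b)) := by
    intro τ hτ
    rw [trM_eqv hτ hE]
    exact htr L j hL τ hτ
  refine ⟨ρ, hρ, hE, htrP, ?_⟩
  intro τ hτ b hb
  obtain ⟨-, -, h3, -, h5⟩ := hMASS D hF L j hL τ hτ
  have hi2 : (0 : ℝ) < (i : ℝ) + 2 := by positivity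
  have hbt := ratio_bd (hρ true)
  have hbf := ratio_bd (hρ false)
  have key : ∀ (x y K : ℝ), 0 ≤ x → x ≤ K → 0 ≤ y → y ≤ K →
      |(x * (1 / 2 + (2 * (3 / 4) - 1) * (((i : ℝ) + 1) / (i + 2))) +
        y * (1 / 2 + (2 * (1 / 4) - 1) * (((i : ℝ) + 1) / (i + 2)))) - x| ≤ K / (i + 2) := by
    intro x y K hx0 hxK hy0 hyK
    have e : (x * (1 / 2 + (2 * (3 / 4) - 1) * (((i : ℝ) + 1) / (i + 2))) +
        y * (1 / 2 + (2 * (1 / 4) - 1) * (((i : ℝ) + 1) / (i + 2)))) - x =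
        ((y - x) / 2) / (i + 2) := by
      field_simp
      ring
    rw [e, abs_div, abs_of_pos hi2]
    refine div_le_div_of_nonneg_right ?_ hi2.le
    rw [abs_le]
    constructor <;> linarith
  have hre : (trM τ P).re = (ρ true : ℝ) / D.n i *
      (1 / 2 + (2 * (τ (j 0 (D.one 0 true))).re - 1) * (((i : ℝ) + 1) / (i + 2))) +
      (ρ false : ℝ) / D.n i *
      (1 / 2 + (2 * (τ (j 0 (D.one 0 false))).re - 1) * (((i : ℝ) + 1) / (i + 2))) := by
    rw [htrP τ hτ, Fintype.sum_bool, h3 i true, h3 i false, ← Complex.ofReal_mul,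
      ← Complex.ofReal_mul, ← Complex.ofReal_add, Complex.ofReal_re]
  rw [hre]
  cases b with
  | true =>
    have h6 : (τ (j 0 (D.one 0 false))).re = 1 / 4 := by linarith
    rw [hb, h6]
    exact key _ _ _ hbt.1 hbt.2 hbf.1 hbf.2
  | false =>
    have h6 : (τ (j 0 (D.one 0 true))).re = 1 / 4 := by linarith
    rw [hb, h6, add_comm]
    exact key _ _ _ hbf.1 hbf.2 hbt.1 hbt.2

end Pool.Agent.H784.ELRNK
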