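import Pool.Agent.H252.UQ.Iface

/-!
# Project UQ (helper252), task COLN
-/

set_option autoImplicit false

open scoped ComplexConjugate

noncomputable section

namespace Pool.Agent.H784.UQ

open Pool.Agent.H252.UQ

theorem diag {A : Type} [Ring A] [StarRing A] {ι : Type} [Fintype ι] (W : ι → A)
    (h : ∀ c c', c ≠ c' → star (W c) * W c' = 0) :
    star (∑ c, W c) * ∑ c, W c = ∑ c, star (W c) * W c := by
  classical
  rw [star_sum, Finset.sum_mul_sum]
  refine Finset.sum_congr rfl fun c _ => ?_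
  rw [Finset.sum_eq_single c]
  · intro c' _ hc
    exact h c c' (Ne.symm hc)
  · intro hc
    exact absurd (Finset.mem_univ c) hc

theorem s_COLN : S_COLN := by
  intro X _ _ A _ ψ ι _ u r hu
  have hcross : ∀ (g g' : C(X, ℂ)) (c c' : ι), c ≠ c' →
      star (ψ (g * cr (u c)) * r c) * (ψ (g' * cr (u c')) * r c') = 0 := by
    intro g g' c c' hc
    have h1 : star (g * cr (u c)) * (g' * cr (u c')) = 0 := by
      ext x
      simp only [ContinuousMap.mul_apply, ContinuousMap.star_apply, cr_apply,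
        ContinuousMap.zero_apply]
      rcases hu c c' hc x with h | h
      · rw [h]; simp
      · rw [h]; simp
    calc star (ψ (g * cr (u c)) * r c) * (ψ (g' * cr (u c')) * r c')
        = star (r c) * (ψ (star (g * cr (u c)) * (g' * cr (u c')))) * r c' := by
          rw [star_mul, map_mul ψ (star (g * cr (u c))), map_star]
          noncomm_ring
      _ = 0 := by rw [h1, map_zero, mul_zero, zero_mul]
  have hcross1 : ∀ c c', c ≠ c' →
      star (ψ (cr (u c)) * r c) * (ψ (cr (u c')) * r c') = 0 := by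
    intro c c' hc
    have := hcross 1 1 c c' hc
    rwa [one_mul, one_mul] at this
  refine ⟨hcross1, ?_⟩
  intro f b ρ hρ hf
  let _ : PartialOrder A := CStarAlgebra.spectralOrder A
  have : StarOrderedRing A := CStarAlgebra.spectralOrderedRing A
  set S : A := ∑ c, ψ (cr (u c)) * r c with hS
  set W : ι → A := fun c => ψ ((f - algebraMap ℂ C(X, ℂ) (b c)) * cr (u c)) * r c with hW
  have hWS : ψ f * S - ∑ c, b c • (ψ (cr (u c)) * r c) = ∑ c, W c := by
    rw [hS, Finset.mul_sum, ← Finset.sum_sub_distrib]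
    refine Finset.sum_congr rfl fun c _ => ?_
    simp only [hW]
    rw [map_mul, map_sub, sub_mul, sub_mul, AlgHomClass.commutes, Algebra.algebraMap_eq_smul_one,
      smul_one_mul, smul_mul_assoc, mul_assoc]
  -- square roots
  have hk : ∀ c x, 0 ≤ (ρ ^ 2 - ‖f x - b c‖ ^ 2) * (u c x) ^ 2 := by
    intro c x
    by_cases h : u c x = 0
    · rw [h]; simp
    · have h1 := hf c x h
      have h2 := norm_nonneg (f x - b c)
      exact mul_nonneg (by nlinarith) (sq_nonneg _)
  let s : ι → C(X, ℝ) := fun c =>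
    ⟨fun x => Real.sqrt ((ρ ^ 2 - ‖f x - b c‖ ^ 2) * (u c x) ^ 2), by fun_prop⟩
  have hs : ∀ c x, (s c x) ^ 2 = (ρ ^ 2 - ‖f x - b c‖ ^ 2) * (u c x) ^ 2 := by
    intro c x
    exact Real.sq_sqrt (hk c x)
  have hid : ∀ c, star ((f - algebraMap ℂ C(X, ℂ) (b c)) * cr (u c)) *
      ((f - algebraMap ℂ C(X, ℂ) (b c)) * cr (u c)) + star (cr (s c)) * cr (s c) =
      ((ρ ^ 2 : ℝ) : ℂ) • (star (cr (u c)) * cr (u c)) := by
    intro c
    ext x
    have h1 : ((s c x : ℝ) : ℂ) ^ 2 = ((ρ : ℂ) ^ 2 - (‖f x - b c‖ : ℂ) ^ 2) * (u c x : ℂ) ^ 2 := by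
      have := congrArg (fun t : ℝ => (t : ℂ)) (hs c x)
      push_cast at this
      exact this
    have h2 : conj (f x - b c) * (f x - b c) = (‖f x - b c‖ : ℂ) ^ 2 := by
      rw [mul_comm, Complex.mul_conj, Complex.normSq_eq_norm_sq]
      push_cast
      rfl
    have h3 : algebraMap ℂ C(X, ℂ) (b c) x = b c := rfl
    simp only [ContinuousMap.add_apply, ContinuousMap.mul_apply, ContinuousMap.star_apply,
      ContinuousMap.sub_apply, cr_apply, ContinuousMap.smul_apply, smul_eq_mul, h3,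
      star_mul', Complex.star_def, Complex.conj_ofReal]
    calc conj (f x - b c) * (u c x : ℂ) * ((f x - b c) * (u c x : ℂ)) + (s c x : ℂ) * (s c x : ℂ)
        = (conj (f x - b c) * (f x - b c)) * (u c x : ℂ) ^ 2 + (s c x : ℂ) ^ 2 := by ring
      _ = ((ρ ^ 2 : ℝ) : ℂ) * ((u c x : ℂ) * (u c x : ℂ)) := by
          rw [h1, h2]; push_cast; ring
  have hpt : ∀ c, star (W c) * W c + star (ψ (cr (s c)) * r c) * (ψ (cr (s c)) * r c) =
      ((ρ ^ 2 : ℝ) : ℂ) • (star (ψ (cr (u c)) * r c) * (ψ (cr (u c)) * r c)) := by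
    intro c
    have key : ∀ g : C(X, ℂ), star (ψ g * r c) * (ψ g * r c) = star (r c) * ψ (star g * g) * r c := by
      intro g
      rw [star_mul, map_mul, map_star]
      noncomm_ring
    simp only [hW]
    rw [key, key, key, ← add_mul, ← mul_add, ← map_add, hid c, map_smul, mul_smul_comm,
      smul_mul_assoc]
  have hsum : star (∑ c, W c) * (∑ c, W c) +
      ∑ c, star (ψ (cr (s c)) * r c) * (ψ (cr (s c)) * r c) = ((ρ ^ 2 : ℝ) : ℂ) • (star S * S) := by
    rw [diag W (fun c c' hc => hcross _ _ c c' hc), hS, diag _ hcross1, Finset.smul_sum,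
      ← Finset.sum_add_distrib]
    exact Finset.sum_congr rfl fun c _ => hpt c
  have hpos : 0 ≤ ∑ c, star (ψ (cr (s c)) * r c) * (ψ (cr (s c)) * r c) :=
    Finset.sum_nonneg fun c _ => star_mul_self_nonneg _
  have hle : star (∑ c, W c) * (∑ c, W c) ≤ ((ρ ^ 2 : ℝ) : ℂ) • (star S * S) := by
    rw [← hsum]
    exact le_add_of_nonneg_right hpos
  have hn := CStarAlgebra.norm_le_norm_of_nonneg_of_le (star_mul_self_nonneg (∑ c, W c)) hle
  rw [norm_smul, CStarRing.norm_star_mul_self, CStarRing.norm_star_mul_self, Complex.norm_real,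
    Real.norm_of_nonneg (sq_nonneg ρ)] at hn
  rw [hWS]
  have h5 : ‖∑ c, W c‖ ^ 2 ≤ (ρ * ‖S‖) ^ 2 := by nlinarith
  exact le_of_sq_le_sq h5 (by positivity)

end Pool.Agent.H784.UQ
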