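import Mathlib
import Pool.Agent.H576.RD.Stm

/-!
# RD B4: layered Delone sets are regular
-/

set_option autoImplicit false

namespace Pool.Agent.H784

open Pool.Agent.H576.RD

namespace B4aux

variable {X : Set E} {a : E} {s : ℝ}

/-- the standing hypotheses -/
structure Hyp (X : Set E) (a : E) (s : ℝ) : Prop where
  ha : ‖a‖ = 1
  s0 : 0 < s
  s2 : s ≤ 0.2
  lay : ∀ x ∈ X, LayerAt X a s x
  tz : ∀ x ∈ X, ∀ e : E, ‖e‖ = 1 → ∃ v : E, v ≠ 0 ∧ ‖v‖ ≤ 2 ∧ x + v ∈ X ∧ ‖v‖ ^ 2 ≤ 2 * inner ℝ v e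

theorem lam_shift {x : E} (hl : LayerAt X a s x) {v : E} (hv : v ∈ Lam X s x) : Lam X s (x + v) = Lam X s x := by
  unfold Lam
  congr 1
  ext w
  simp only [Set.mem_ofPred_eq]
  constructor
  · rintro ⟨h1, h2⟩
    exact ⟨h1, (hl.same v hv w h1).mp h2⟩
  · rintro ⟨h1, h2⟩
    exact ⟨h1, (hl.same v hv w h1).mpr h2⟩

theorem lam_map_le {g : LI} {x y : E} (h : ∀ w : E, ‖w‖ = s → x + w ∈ X → y + g w ∈ X) {v : E}
    (hv : v ∈ Lam X s x) : g v ∈ Lam X s y := by
  refine AddSubgroup.closure_induction (p := fun v _ => g v ∈ Lam X s y) ?_ ?_ ?_ ?_ hv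
  · intro w hw
    refine AddSubgroup.subset_closure ⟨?_, h w hw.1 hw.2⟩
    rw [LinearIsometryEquiv.norm_map]
    exact hw.1
  · rw [map_zero]
    exact zero_mem _
  · intro v w _ _ h1 h2
    rw [map_add]
    exact add_mem h1 h2
  · intro v _ h1
    rw [map_neg]
    exact neg_mem h1

theorem inv_apply (g : LI) (v : E) : (g⁻¹ : LI) (g v) = v := LinearIsometryEquiv.symm_apply_apply g v

theorem apply_inv (g : LI) (v : E) : g ((g⁻¹ : LI) v) = v := LinearIsometryEquiv.apply_symm_apply g v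

theorem lam_iff {g : LI} {x y : E} {ρ : ℝ} (h : Eqv X x y ρ g) (hs : s ≤ ρ) (v : E) :
    v ∈ Lam X s x ↔ g v ∈ Lam X s y := by
  constructor
  · exact lam_map_le fun w hw hx => (h w (hw.trans_le hs)).mp hx
  · intro hv
    have := lam_map_le (g := g⁻¹) (fun w hw hx => (h.symm w (hw.trans_le hs)).mp hx) hv
    rwa [inv_apply] at this

/-- the isometry preserves heights up to sign -/
theorem height (H : Hyp X a s) {g : LI} {x y : E} {ρ : ℝ} (hx : x ∈ X) (hy : y ∈ X) (h : Eqv X x y ρ g) (hs : s ≤ ρ)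
    (w : E) : |inner ℝ (g w) a| = |inner ℝ w a| := by
  have h1 : ∀ w : E, inner ℝ w a = 0 → inner ℝ (g w) a = 0 := by
    intro w hw
    by_contra hne
    have hc : 0 < |inner ℝ (g w) a| := abs_pos.mpr hne
    set c := |inner ℝ (g w) a| with hcdef
    set t : ℝ := (0.87 * s + 1) / c with ht
    have hs0 := H.s0
    have ht0 : 0 < t := by positivity
    obtain ⟨v, hv, hvn⟩ := (H.lay x hx).dense (t • w) (by rw [inner_smul_left, hw, mul_zero])
    have hgv : g v ∈ Lam X s y := (lam_iff h hs v).mp hv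
    have h2 := ((H.lay y hy).flat _ hgv).1
    have h3 : inner ℝ (g (t • w - v)) a = t * inner ℝ (g w) a := by
      rw [map_sub, map_smul, inner_sub_left, h2, inner_smul_left]
      simp
    have h4 : |inner ℝ (g (t • w - v)) a| ≤ 0.87 * s := by
      refine (abs_real_inner_le_norm _ _).trans ?_
      rw [LinearIsometryEquiv.norm_map, H.ha, mul_one]
      exact hvn
    rw [h3, abs_mul, abs_of_pos ht0, ← hcdef, ht, div_mul_cancel₀ _ hc.ne'] at h4
    linarith
  set c := inner ℝ (g a) a with hc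
  have haa : inner ℝ a a = 1 := by rw [real_inner_self_eq_norm_sq, H.ha]; norm_num
  have h2 : ∀ w : E, inner ℝ (g w) a = c * inner ℝ w a := by
    intro w
    have h3 := h1 (w - (inner ℝ w a : ℝ) • a) (by
      rw [inner_sub_left, inner_smul_left, haa]
      simp)
    rw [map_sub, map_smul, inner_sub_left, inner_smul_left, sub_eq_zero] at h3
    rw [h3]
    simp only [conj_trivial]
    rw [← hc]
    ring
  have h3 : |c| ≤ 1 := by
    refine (abs_real_inner_le_norm _ _).trans ?_
    rw [LinearIsometryEquiv.norm_map, H.ha, mul_one]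
  have h4 : |inner ℝ ((g⁻¹ : LI) a) a| ≤ 1 := by
    refine (abs_real_inner_le_norm _ _).trans ?_
    rw [LinearIsometryEquiv.norm_map, H.ha, mul_one]
  have h5 := h2 ((g⁻¹ : LI) a)
  rw [apply_inv, haa] at h5
  have h6 : |c| = 1 := by
    have h7 : 1 = |c| * |inner ℝ ((g⁻¹ : LI) a) a| := by rw [← abs_mul, ← h5, abs_one]
    have h8 : |c| * |inner ℝ ((g⁻¹ : LI) a) a| ≤ |c| * 1 := mul_le_mul_of_nonneg_left h4 (abs_nonneg _)
    linarith
  rw [h2, abs_mul, h6, one_mul]

/-- (0) points above and below -/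
theorem step (H : Hyp X a s) {x : E} (hx : x ∈ X) {ε : ℝ} (hε : ε = 1 ∨ ε = -1) :
    ∃ p ∈ X, ‖p - x‖ ≤ 2 ∧ 1.7 ≤ ε * inner ℝ (p - x) a ∧ ε * inner ℝ (p - x) a ≤ 2 := by
  have hεn : |ε| = 1 := by rcases hε with h | h <;> rw [h] <;> norm_num
  have hn : ‖ε • a‖ = 1 := by rw [norm_smul, Real.norm_eq_abs, hεn, H.ha, one_mul]
  obtain ⟨v, hv0, hv2, hvX, hvi⟩ := H.tz x hx (ε • a) hn
  have hin : inner ℝ v (ε • a) = ε * inner ℝ v a := by rw [inner_smul_right]
  rw [hin] at hvi
  have hpos : 0 < ε * inner ℝ v a := by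
    have : 0 < ‖v‖ ^ 2 := by
      have := norm_pos_iff.mpr hv0
      positivity
    linarith
  have habs : |inner ℝ v a| = ε * inner ℝ v a := by
    rw [← abs_of_pos hpos, abs_mul, hεn, one_mul]
  refine ⟨x + v, hvX, by rwa [add_sub_cancel_left], ?_, ?_⟩
  · rw [add_sub_cancel_left]
    by_contra hlt
    push Not at hlt
    have h1 := (H.lay x hx).slab (x + v) hvX (by rw [add_sub_cancel_left, habs]; exact hlt)
    rw [add_sub_cancel_left] at h1
    have h2 := ((H.lay x hx).flat v h1).1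
    rw [h2, mul_zero] at hpos
    exact lt_irrefl _ hpos
  · rw [add_sub_cancel_left, ← habs]
    refine (abs_real_inner_le_norm _ _).trans ?_
    rw [H.ha, mul_one]
    exact hv2

/-- half of claim A -/
theorem half (H : Hyp X a s) {g : LI} {u u' v w : E} (hu : u ∈ X) (hu' : u' ∈ X) (h : Eqv X u u' 2.3 g)
    (hv : v ∈ Lam X s u) (hw : ‖w‖ ≤ 2.3) (hb : u + v + w ∈ X) : u' + g v + g w ∈ X := by
  have hs0 := H.s0
  have hs2 := H.s2
  have hgv : g v ∈ Lam X s u' := (lam_iff h (by linarith) v).mp hv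
  have hvflat := (H.lay u hu).flat v hv
  rcases lt_or_ge |inner ℝ w a| 1.7 with hw1 | hw1
  · have h1 := (H.lay (u + v) hvflat.2).slab (u + v + w) hb (by rwa [add_sub_cancel_left])
    rw [add_sub_cancel_left, lam_shift (H.lay u hu) hv] at h1
    have h2 : g w ∈ Lam X s u' := (lam_iff h (by linarith) w).mp h1
    have h3 := ((H.lay u' hu').flat _ (add_mem hgv h2)).2
    rwa [← add_assoc] at h3
  · obtain ⟨ε, hε, hεw⟩ : ∃ ε : ℝ, (ε = 1 ∨ ε = -1) ∧ ε * inner ℝ w a = |inner ℝ w a| := by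
      rcases le_total 0 (inner ℝ w a) with h0 | h0
      · exact ⟨1, Or.inl rfl, by rw [abs_of_nonneg h0, one_mul]⟩
      · exact ⟨-1, Or.inr rfl, by rw [abs_of_nonpos h0]; ring⟩
    have hεn : |ε| = 1 := by rcases hε with h | h <;> rw [h] <;> norm_num
    obtain ⟨p, hp, hpn, hp1, hp2⟩ := step H hu hε
    have hw3 : |inner ℝ w a| ≤ 2.3 := by
      refine (abs_real_inner_le_norm _ _).trans ?_
      rw [H.ha, mul_one]
      exact hw
    have h1 : |inner ℝ (u + v + w - p) a| < 1.7 := by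
      have e : u + v + w - p = v + w - (p - u) := by abel
      have e2 : ε * inner ℝ (u + v + w - p) a = ε * inner ℝ w a - ε * inner ℝ (p - u) a := by
        rw [e, inner_sub_left, inner_add_left, hvflat.1]
        ring
      have e3 : |inner ℝ (u + v + w - p) a| = |ε * inner ℝ (u + v + w - p) a| := by rw [abs_mul, hεn, one_mul]
      rw [e3, e2, hεw, abs_lt]
      constructor <;> linarith
    have h2 := (H.lay p hp).slab _ hb h1
    have h3 : u + (p - u) = p := by abel
    have h4 : u' + g (p - u) ∈ X := (h (p - u) (by linarith)).mp (by rwa [h3])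
    have h5 : Eqv X p (u' + g (p - u)) 0.2 g := by
      have := h.shift (σ := 0.2) (p - u) (by linarith)
      rwa [h3] at this
    have h6 := ((H.lay _ h4).flat _ ((lam_iff h5 hs2 _).mp h2)).2
    have e : u' + g (p - u) + g (u + v + w - p) = u' + g v + g w := by
      rw [add_assoc, ← map_add, add_assoc u' (g v) (g w), ← map_add g v w]
      congr 2
      abel
    rwa [e] at h6

/-- claim A -/
theorem claimA (H : Hyp X a s) {g : LI} {u u' v : E} (hu : u ∈ X) (hu' : u' ∈ X) (h : Eqv X u u' 2.3 g)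
    (hv : v ∈ Lam X s u) : u + v ∈ X ∧ u' + g v ∈ X ∧ Eqv X (u + v) (u' + g v) 2.3 g := by
  have hs2 := H.s2
  have hgv : g v ∈ Lam X s u' := (lam_iff h (by linarith) v).mp hv
  refine ⟨((H.lay u hu).flat v hv).2, ((H.lay u' hu').flat _ hgv).2, fun w hw => ⟨half H hu hu' h hv hw, fun hb => ?_⟩⟩
  have h1 := half H (g := g⁻¹) (w := g w) hu' hu h.symm hgv (by rwa [LinearIsometryEquiv.norm_map]) hb
  rwa [inv_apply, inv_apply] at h1

/-- the two halves of the comparison in claim B -/
theorem halfB (H : Hyp X a s) {g : LI} {u u' b w : E} (hu : u ∈ X) (hu' : u' ∈ X) (h : Eqv X u u' 2.3 g)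
    (hw : |inner ℝ (b + w - u) a| < 1.7) (hb : b + w ∈ X) : u' + g (b - u) + g w ∈ X := by
  have hs2 := H.s2
  have h1 := (H.lay u hu).slab _ hb hw
  have h2 := ((H.lay u' hu').flat _ ((lam_iff h (by linarith) _).mp h1)).2
  have e : u' + g (b + w - u) = u' + g (b - u) + g w := by
    rw [add_assoc, ← map_add]
    congr 2
    abel
  rwa [e] at h2

/-- claim B -/
theorem claimB (H : Hyp X a s) (hN : Nn X 3)
    (hAlt : ∀ x ∈ X, ∀ g ∈ Aut X x 1.8, g ∈ Aut X x 2.3 ∨ negI * g ∈ Aut X x 2.3)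
    (hneg : ∀ x ∈ X, negI ∉ Aut X x 2.3) {g : LI} {u u' b : E} (hu : u ∈ X) (hu' : u' ∈ X)
    (h : Eqv X u u' 2.3 g) (hb : b ∈ X) (hbu : ‖b - u‖ ≤ 2) (hbh : 1.7 ≤ |inner ℝ (b - u) a|) :
    u' + g (b - u) ∈ X ∧ Eqv X b (u' + g (b - u)) 2.3 g := by
  have hs0 := H.s0
  have hs2 := H.s2
  have h3 : u + (b - u) = b := by abel
  have hb' : u' + g (b - u) ∈ X := (h (b - u) (by linarith)).mp (by rwa [h3])
  refine ⟨hb', ?_⟩
  have h5 : Eqv X b (u' + g (b - u)) 0.2 g := by
    have := h.shift (σ := 0.2) (b - u) (by linarith)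
    rwa [h3] at this
  set b' := u' + g (b - u) with hb'def
  obtain ⟨k, hk⟩ := hN b hb b' hb'
  have hk2 : Eqv X b b' 2.3 k := hk.mono (by norm_num)
  have hmemb : ∀ w : E, ‖w‖ ≤ 1.8 → (b + w ∈ X ↔ w ∈ Lam X s b) := by
    intro w hw
    constructor
    · intro hx
      have := (H.lay b hb).near _ hx (by rwa [add_sub_cancel_left])
      rwa [add_sub_cancel_left] at this
    · intro hx
      exact ((H.lay b hb).flat w hx).2
  have hφ : (k⁻¹ * g : LI) ∈ Aut X b 1.8 := by
    rw [mem_Aut]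
    intro w hw
    have hwn : ‖(k⁻¹ * g : LI) w‖ ≤ 1.8 := by rwa [LinearIsometryEquiv.norm_map]
    rw [hmemb w hw, hmemb _ hwn, lam_iff h5 hs2]
    have h6 := lam_iff (s := s) hk2.symm (by linarith) (g w)
    exact h6
  rcases hAlt b hb _ hφ with h6 | h6
  · have h7 : Eqv X b b' 2.3 (k * (k⁻¹ * g)) := Eqv.trans h6 hk2
    rwa [mul_inv_cancel_left] at h7
  · exfalso
    have h7 : Eqv X b b' 2.3 (k * (negI * (k⁻¹ * g))) := Eqv.trans h6 hk2
    have h8 : ∀ w : E, (k * (negI * (k⁻¹ * g)) : LI) w = -g w := by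
      intro w
      show k (-((k⁻¹ : LI) (g w))) = -g w
      rw [map_neg, apply_inv]
    have h9 : ∀ w : E, ‖w‖ ≤ 2.3 → (b + w ∈ X ↔ b' - g w ∈ X) := by
      intro w hw
      rw [h7 w hw, h8, sub_eq_add_neg]
    -- the sign
    obtain ⟨ε, hε, hεw⟩ : ∃ ε : ℝ, (ε = 1 ∨ ε = -1) ∧ ε * inner ℝ (u - b) a = |inner ℝ (b - u) a| := by
      have e : inner ℝ (u - b) a = -inner ℝ (b - u) a := by rw [← inner_neg_left, neg_sub]
      rcases le_total 0 (inner ℝ (b - u) a) with h0 | h0
      · exact ⟨-1, Or.inr rfl, by rw [abs_of_nonneg h0, e]; ring⟩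
      · exact ⟨1, Or.inl rfl, by rw [abs_of_nonpos h0, e]; ring⟩
    have hεn : |ε| = 1 := by rcases hε with h | h <;> rw [h] <;> norm_num
    have hbu2 : |inner ℝ (b - u) a| ≤ 2 := by
      refine (abs_real_inner_le_norm _ _).trans ?_
      rw [H.ha, mul_one]
      exact hbu
    -- points on the side of `u`
    have h10 : ∀ w : E, ‖w‖ ≤ 2.3 → 1.7 ≤ ε * inner ℝ w a → (b' + g w ∈ X ↔ b' - g w ∈ X) := by
      intro w hw hwe
      rw [← h9 w hw]
      have hw3 : |inner ℝ w a| ≤ 2.3 := by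
        refine (abs_real_inner_le_norm _ _).trans ?_
        rw [H.ha, mul_one]
        exact hw
      have hw4 : ε * inner ℝ w a ≤ 2.3 := by
        refine le_trans (le_abs_self _) ?_
        rw [abs_mul, hεn, one_mul]
        exact hw3
      have h11 : |inner ℝ (b + w - u) a| < 1.7 := by
        have e2 : ε * inner ℝ (b + w - u) a = ε * inner ℝ w a - ε * inner ℝ (u - b) a := by
          have e : b + w - u = w - (u - b) := by abel
          rw [e, inner_sub_left]
          ring
        have e3 : |inner ℝ (b + w - u) a| = |ε * inner ℝ (b + w - u) a| := by rw [abs_mul, hεn, one_mul]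
        rw [e3, e2, hεw, abs_lt]
        constructor <;> linarith
      constructor
      · intro hx
        -- use `g⁻¹`
        have h12 : |inner ℝ (b' + g w - u') a| < 1.7 := by
          have e : b' + g w - u' = g (b + w - u) := by
            rw [hb'def]
            have : u' + g (b - u) + g w - u' = g (b - u) + g w := by abel
            rw [this, ← map_add]
            congr 1
            abel
          rw [e, height H hu hu' h (by linarith)]
          exact h11
        have h13 := halfB H (g := g⁻¹) hu' hu h.symm h12 hx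
        have e : u + (g⁻¹ : LI) (b' - u') + (g⁻¹ : LI) (g w) = b + w := by
          rw [inv_apply, hb'def, add_sub_cancel_left, inv_apply, h3]
        rwa [e] at h13
      · exact halfB H hu hu' h h11
    -- all points
    have h14 : ∀ w : E, ‖w‖ ≤ 2.3 → (b' + g w ∈ X ↔ b' - g w ∈ X) := by
      intro w hw
      rcases lt_or_ge |inner ℝ w a| 1.7 with hw1 | hw1
      · have h15 : |inner ℝ (g w) a| < 1.7 := by
          rw [height H hu hu' h (by linarith)]
          exact hw1
        have h16 : ∀ v : E, |inner ℝ v a| < 1.7 → (b' + v ∈ X ↔ v ∈ Lam X s b') := by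
          intro v hv
          constructor
          · intro hx
            have := (H.lay b' hb').slab _ hx (by rwa [add_sub_cancel_left])
            rwa [add_sub_cancel_left] at this
          · intro hx
            exact ((H.lay b' hb').flat v hx).2
        rw [sub_eq_add_neg, h16 _ h15, h16 _ (by rwa [inner_neg_left, abs_neg])]
        exact neg_mem_iff.symm
      · rcases le_total 0 (ε * inner ℝ w a) with h0 | h0
        · refine h10 w hw ?_
          have : ε * inner ℝ w a = |inner ℝ w a| := by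
            rw [← abs_of_nonneg h0, abs_mul, hεn, one_mul]
          rw [this]
          exact hw1
        · have h17 := h10 (-w) (by rwa [norm_neg]) (by
            have : |inner ℝ w a| = -(ε * inner ℝ w a) := by
              rw [← abs_of_nonpos h0, abs_mul, hεn, one_mul]
            rw [inner_neg_left]
            linarith)
          rw [map_neg, sub_neg_eq_add, ← sub_eq_add_neg] at h17
          exact h17.symm
    refine hneg b' hb' ?_
    rw [mem_Aut]
    intro v hv
    have h18 := h14 ((g⁻¹ : LI) v) (by rwa [LinearIsometryEquiv.norm_map])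
    rw [apply_inv] at h18
    rw [negI_apply, ← sub_eq_add_neg]
    exact h18

/-- (4) propagation -/
theorem prop (H : Hyp X a s) (hN : Nn X 3)
    (hAlt : ∀ x ∈ X, ∀ g ∈ Aut X x 1.8, g ∈ Aut X x 2.3 ∨ negI * g ∈ Aut X x 2.3)
    (hneg : ∀ x ∈ X, negI ∉ Aut X x 2.3) {g : LI} (n : ℕ) : ∀ {u u' z : E}, u ∈ X → u' ∈ X →
    Eqv X u u' 2.3 g → z ∈ X → |inner ℝ (z - u) a| < 1.7 * (n + 1) → u' + g (z - u) ∈ X := by
  induction n with
  | zero =>
    intro u u' z hu hu' h hz hh
    have h1 := (H.lay u hu).slab z hz (by simpa using hh)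
    exact (claimA H hu hu' h h1).2.1
  | succ n ih =>
    intro u u' z hu hu' h hz hh
    rcases lt_or_ge |inner ℝ (z - u) a| 1.7 with h0 | h0
    · exact ih hu hu' h hz (lt_of_lt_of_le h0 (by nlinarith [(Nat.cast_nonneg n : (0 : ℝ) ≤ n)]))
    · obtain ⟨ε, hε, hεw⟩ : ∃ ε : ℝ, (ε = 1 ∨ ε = -1) ∧ ε * inner ℝ (z - u) a = |inner ℝ (z - u) a| := by
        rcases le_total 0 (inner ℝ (z - u) a) with h0 | h0
        · exact ⟨1, Or.inl rfl, by rw [abs_of_nonneg h0, one_mul]⟩
        · exact ⟨-1, Or.inr rfl, by rw [abs_of_nonpos h0]; ring⟩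
      have hεn : |ε| = 1 := by rcases hε with h | h <;> rw [h] <;> norm_num
      obtain ⟨p, hp, hpn, hp1, hp2⟩ := step H hu hε
      have hpa : 1.7 ≤ |inner ℝ (p - u) a| := by
        have : |inner ℝ (p - u) a| = |ε * inner ℝ (p - u) a| := by rw [abs_mul, hεn, one_mul]
        rw [this]
        exact hp1.trans (le_abs_self _)
      obtain ⟨hp', hpE⟩ := claimB H hN hAlt hneg hu hu' h hp hpn hpa
      have h1 := ih hp hp' hpE hz (by
        have e2 : ε * inner ℝ (z - p) a = ε * inner ℝ (z - u) a - ε * inner ℝ (p - u) a := by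
          have e : z - p = (z - u) - (p - u) := by abel
          rw [e, inner_sub_left]
          ring
        have e3 : |inner ℝ (z - p) a| = |ε * inner ℝ (z - p) a| := by rw [abs_mul, hεn, one_mul]
        rw [e3, e2, hεw, abs_lt]
        push_cast at hh
        have hn : (0 : ℝ) ≤ n := Nat.cast_nonneg n
        constructor <;> linarith)
      have e : u' + g (p - u) + g (z - p) = u' + g (z - u) := by
        rw [add_assoc, ← map_add]
        congr 2
        abel
      rwa [e] at h1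

end B4aux

open B4aux in
theorem rd_b4 (h1 : S_T0) : S_B4 := by
  intro r X a s hD hN ha hs hMin hlay hAlt hneg x hx y hy
  have H : Hyp X a s := ⟨ha, hMin.pos, hs, hlay, h1 r X hD⟩
  obtain ⟨g, hg⟩ := hN x hx y hy
  have hg2 : Eqv X x y 2.3 g := hg.mono (by norm_num)
  have key : ∀ {g : LI} {x y : E}, x ∈ X → y ∈ X → Eqv X x y 2.3 g → ∀ z ∈ X, y + g (z - x) ∈ X := by
    intro g x y hx hy hg z hz
    obtain ⟨n, hn⟩ := exists_nat_gt (|inner ℝ (z - x) a|)
    exact prop H hN hAlt hneg n hx hy hg hz (by nlinarith [(Nat.cast_nonneg n : (0 : ℝ) ≤ n)])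
  let F : E ≃ᵢ E := (IsometryEquiv.subRight x).trans (g.toIsometryEquiv.trans (IsometryEquiv.addLeft y))
  have hF : ∀ z, F z = y + g (z - x) := fun z => rfl
  refine ⟨F, ?_, by rw [hF, sub_self, map_zero, add_zero]⟩
  ext z
  constructor
  · rintro ⟨w, hw, rfl⟩
    rw [hF]
    exact key hx hy hg2 w hw
  · intro hz
    refine ⟨x + (g⁻¹ : LI) (z - y), key hy hx hg2.symm z hz, ?_⟩
    rw [hF, add_sub_cancel_left, apply_inv]
    abel

end Pool.Agent.H784
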