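import Pool.Agent.H683.CV.Lem

/-!
# A capacitated Hall theorem
-/

set_option autoImplicit false

namespace Pool.Agent.H784.CVHALL2

open Finset

/-- Hall's theorem with capacities: a vertex `v` of the clique `r v` gets an allowed color, vertices
of the same clique get different colors, and the color `c` is used at most `cap c` times. -/
theorem hall_cap {V K C : Type} [Fintype V] [Fintype K] [Fintype C] [DecidableEq V]
    [DecidableEq K] [DecidableEq C] (r : V → K) (ok : V → C → Prop) [∀ v c, Decidable (ok v c)]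
    (cap : C → ℕ)
    (H : ∀ W : Finset V, #W ≤ ∑ c, min (cap c) #(univ.filter fun k => ∃ v ∈ W, r v = k ∧ ok v c)) :
    ∃ f : V → C, (∀ v, ok v (f v)) ∧ (∀ u v, u ≠ v → r u = r v → f u ≠ f v) ∧
      ∀ c, #(univ.filter fun v => f v = c) ≤ cap c := by
  obtain ⟨d, hd⟩ : ∃ d, d = Fintype.card K := ⟨_, rfl⟩
  let t : V ⊕ (Σ c : C, Fin (d - min d (cap c))) → Finset (C × K) :=
    Sum.elim (fun v => univ.filter fun p => ok v p.1 ∧ p.2 = r v)
      (fun x => univ.filter fun p => p.1 = x.1)
  have ht1 : ∀ v p, p ∈ t (Sum.inl v) ↔ ok v p.1 ∧ p.2 = r v := by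
    intro v p
    show p ∈ univ.filter (fun p : C × K => ok v p.1 ∧ p.2 = r v) ↔ _
    rw [mem_filter]
    exact ⟨fun h => h.2, fun h => ⟨mem_univ _, h⟩⟩
  have ht2 : ∀ x p, p ∈ t (Sum.inr x) ↔ p.1 = x.1 := by
    intro x p
    show p ∈ univ.filter (fun p : C × K => p.1 = x.1) ↔ _
    rw [mem_filter]
    exact ⟨fun h => h.2, fun h => ⟨mem_univ _, h⟩⟩
  have hall : ∀ L : Finset (V ⊕ (Σ c : C, Fin (d - min d (cap c)))), #L ≤ #(L.biUnion t) := by
    intro L
    obtain ⟨W, hW⟩ : ∃ W : Finset V, ∀ v, v ∈ W ↔ Sum.inl v ∈ L := ⟨L.toLeft, fun v => mem_toLeft⟩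
    obtain ⟨R, hR⟩ : ∃ R : Finset (Σ c : C, Fin (d - min d (cap c))), ∀ v, v ∈ R ↔ Sum.inr v ∈ L :=
      ⟨L.toRight, fun v => mem_toRight⟩
    have hL : #L ≤ #W + #R := by
      have h1 : W = L.toLeft := by
        ext v
        rw [hW, mem_toLeft]
      have h2 : R = L.toRight := by
        ext v
        rw [hR, mem_toRight]
      rw [h1, h2, card_toLeft_add_card_toRight]
    obtain ⟨C0, hC0⟩ : ∃ C0 : Finset C, C0 = R.image Sigma.fst := ⟨_, rfl⟩
    have hR2 : #R ≤ ∑ c ∈ C0, (d - min d (cap c)) := by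
      have h1 : R ⊆ C0.sigma fun c => (univ : Finset (Fin (d - min d (cap c)))) := by
        intro x hx
        rw [mem_sigma]
        refine ⟨?_, mem_univ _⟩
        rw [hC0]
        exact mem_image_of_mem _ hx
      refine (card_le_card h1).trans (le_of_eq ?_)
      rw [card_sigma]
      exact sum_congr rfl fun c _ => by rw [card_univ, Fintype.card_fin]
    obtain ⟨n, hn⟩ : ∃ n : C → Finset K, ∀ c, n c = univ.filter fun k => ∃ v ∈ W, r v = k ∧ ok v c :=
      ⟨_, fun _ => rfl⟩
    have hnd : ∀ c, #(n c) ≤ d := fun c => by rw [hd]; exact card_le_univ _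
    have hN : ∑ c ∈ C0, d + ∑ c ∈ C0ᶜ, #(n c) ≤ #(L.biUnion t) := by
      have h1 : #((univ : Finset C).sigma fun c => if c ∈ C0 then univ else n c) =
          ∑ c ∈ C0, d + ∑ c ∈ C0ᶜ, #(n c) := by
        rw [card_sigma, ← sum_add_sum_compl C0]
        congr 1
        · refine sum_congr rfl fun c hc => ?_
          rw [if_pos hc, card_univ, hd]
        · refine sum_congr rfl fun c hc => ?_
          rw [if_neg (mem_compl.1 hc)]
      rw [← h1]
      refine card_le_card_of_injOn (fun x => (x.1, x.2)) ?_ ?_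
      · rintro ⟨c, k⟩ hx
        have hx' : k ∈ (if c ∈ C0 then (univ : Finset K) else n c) :=
          (mem_sigma.1 (mem_coe.1 hx)).2
        rw [mem_coe, mem_biUnion]
        by_cases hc : c ∈ C0
        · have hc' := hc
          rw [hC0, mem_image] at hc'
          obtain ⟨x, hxR, hxc⟩ := hc'
          exact ⟨Sum.inr x, (hR x).1 hxR, (ht2 _ _).2 hxc.symm⟩
        · rw [if_neg hc, hn, mem_filter] at hx'
          obtain ⟨-, v, hv, hrv, hok⟩ := hx'
          exact ⟨Sum.inl v, (hW v).1 hv, (ht1 _ _).2 ⟨hok, hrv.symm⟩⟩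
      · rintro ⟨c, k⟩ _ ⟨c', k'⟩ _ he
        have he1 : c = c' := congrArg Prod.fst he
        have he2 : k = k' := congrArg Prod.snd he
        subst he1
        subst he2
        rfl
    have hH := H W
    have hH' : #W ≤ ∑ c, min (cap c) #(n c) := by
      refine hH.trans (le_of_eq (sum_congr rfl fun c _ => ?_))
      rw [hn]
    rw [← sum_add_sum_compl C0] at hH'
    have h3 : ∑ c ∈ C0, min (cap c) #(n c) + ∑ c ∈ C0, (d - min d (cap c)) ≤ ∑ c ∈ C0, d := by
      rw [← sum_add_distrib]
      refine sum_le_sum fun c _ => ?_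
      have := hnd c
      omega
    have h4 : ∑ c ∈ C0ᶜ, min (cap c) #(n c) ≤ ∑ c ∈ C0ᶜ, #(n c) :=
      sum_le_sum fun c _ => min_le_right _ _
    omega
  obtain ⟨F, hF, hFt⟩ := (all_card_le_biUnion_card_iff_exists_injective t).1 hall
  have hF1 : ∀ v, ok v (F (Sum.inl v)).1 ∧ (F (Sum.inl v)).2 = r v := fun v =>
    (ht1 _ _).1 (hFt (Sum.inl v))
  have hF2 : ∀ x, (F (Sum.inr x)).1 = x.1 := fun x => (ht2 _ _).1 (hFt (Sum.inr x))
  refine ⟨fun v => (F (Sum.inl v)).1, fun v => (hF1 v).1, ?_, ?_⟩
  · intro u v huv hr he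
    apply huv
    have h1 : F (Sum.inl u) = F (Sum.inl v) := by
      refine Prod.ext he ?_
      rw [(hF1 u).2, (hF1 v).2, hr]
    exact Sum.inl_injective (hF h1)
  · intro c
    obtain ⟨A, hA⟩ : ∃ A : Finset K, A = (univ.filter fun v => (F (Sum.inl v)).1 = c).image
      fun v => (F (Sum.inl v)).2 := ⟨_, rfl⟩
    obtain ⟨B, hB⟩ : ∃ B : Finset K, B = (univ : Finset (Fin (d - min d (cap c)))).image
      fun i => (F (Sum.inr ⟨c, i⟩)).2 := ⟨_, rfl⟩
    have hcA : #A = #(univ.filter fun v => (F (Sum.inl v)).1 = c) := by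
      rw [hA]
      refine card_image_of_injOn ?_
      intro u hu v hv he
      rw [mem_coe, mem_filter] at hu hv
      have h1 : F (Sum.inl u) = F (Sum.inl v) := Prod.ext (hu.2.trans hv.2.symm) he
      exact Sum.inl_injective (hF h1)
    have hcB : #B = d - min d (cap c) := by
      rw [hB, card_image_of_injective, card_univ, Fintype.card_fin]
      intro i j he
      have h1 : F (Sum.inr ⟨c, i⟩) = F (Sum.inr ⟨c, j⟩) :=
        Prod.ext ((hF2 ⟨c, i⟩).trans (hF2 ⟨c, j⟩).symm) he
      have h2 := Sum.inr_injective (hF h1)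
      simpa using h2
    have hdis : Disjoint A B := by
      rw [disjoint_left]
      intro k hkA hkB
      rw [hA, mem_image] at hkA
      rw [hB, mem_image] at hkB
      obtain ⟨v, hv, hvk⟩ := hkA
      obtain ⟨i, -, hik⟩ := hkB
      rw [mem_filter] at hv
      have h1 : F (Sum.inl v) = F (Sum.inr ⟨c, i⟩) :=
        Prod.ext (hv.2.trans (hF2 ⟨c, i⟩).symm) (hvk.trans hik.symm)
      exact absurd (hF h1) (by simp)
    have h5 : #A + #B ≤ d := by
      rw [← card_union_of_disjoint hdis, hd]
      exact card_le_univ _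
    rw [← hcA]
    omega

theorem HALL2 : Pool.Agent.H683.CV.S_HALL2 := by
  intro V K P I _ _ _ _ _ _ _ _ r al y b hyp
  obtain ⟨f, h1, h2, h3⟩ := hall_cap (C := P ⊕ I) r
    (fun v c => ∀ j, c = Sum.inl j → al v j = true) (Sum.elim y b) (by
      intro W
      rw [Fintype.sum_sum_type]
      -- the sets of cliques
      obtain ⟨T, hT⟩ : ∃ T : Finset K, T = W.image r := ⟨_, rfl⟩
      obtain ⟨n, hn⟩ : ∃ n : P → Finset K, ∀ j, n j =
          univ.filter fun k => ∃ v ∈ W, r v = k ∧ al v j = true := ⟨_, fun _ => rfl⟩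
      have hI : ∀ i : I, (univ.filter fun k => ∃ v ∈ W, r v = k ∧
          ∀ j, (Sum.inr i : P ⊕ I) = Sum.inl j → al v j = true) = T := by
        intro i
        ext k
        rw [mem_filter, hT, mem_image]
        constructor
        · rintro ⟨-, v, hv, hr, -⟩
          exact ⟨v, hv, hr⟩
        · rintro ⟨v, hv, hr⟩
          exact ⟨mem_univ _, v, hv, hr, fun j hj => absurd hj (by simp)⟩
      have hP : ∀ j : P, (univ.filter fun k => ∃ v ∈ W, r v = k ∧
          ∀ j', (Sum.inl j : P ⊕ I) = Sum.inl j' → al v j' = true) = n j := by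
        intro j
        rw [hn]
        ext k
        rw [mem_filter, mem_filter]
        constructor
        · rintro ⟨-, v, hv, hr, h⟩
          exact ⟨mem_univ _, v, hv, hr, h j rfl⟩
        · rintro ⟨-, v, hv, hr, h⟩
          exact ⟨mem_univ _, v, hv, hr, fun j' hj' => by
            rw [← Sum.inl_injective hj']
            exact h⟩
      obtain ⟨A, hA⟩ : ∃ A : Finset P, A = univ.filter fun j => y j ≤ #(n j) := ⟨_, rfl⟩
      obtain ⟨J, hJ⟩ : ∃ J : K → Finset P, ∀ k, J k = A ∪
        univ.filter fun j => ∃ v ∈ W, r v = k ∧ al v j = true := ⟨_, fun _ => rfl⟩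
      have key := hyp A T J (fun k => by rw [hJ]; exact subset_union_left)
      have hW : #W ≤ ∑ k ∈ T, #(univ.filter fun v => r v = k ∧ ∀ j, al v j = true → j ∈ J k) := by
        rw [card_eq_sum_card_fiberwise (f := r) (t := T)
          (fun v hv => by rw [hT]; exact mem_image_of_mem _ hv)]
        refine sum_le_sum fun k _ => card_le_card ?_
        intro v hv
        rw [mem_filter] at hv ⊢
        refine ⟨mem_univ _, hv.2, fun j hj => ?_⟩
        rw [hJ]
        exact mem_union_right _ (mem_filter.2 ⟨mem_univ _, v, hv.1, hv.2, hj⟩)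
      have hB : ∑ k ∈ T, #(J k \ A) = ∑ j ∈ Aᶜ, #(n j) := by
        have e1 : ∀ k ∈ T, #(J k \ A) = ∑ j ∈ Aᶜ, if k ∈ n j then 1 else 0 := by
          intro k _
          rw [← card_filter]
          congr 1
          ext j
          rw [mem_sdiff, hJ, mem_union, mem_filter, mem_filter, mem_compl, hn, mem_filter]
          constructor
          · rintro ⟨h | h, h'⟩
            · exact absurd h h'
            · exact ⟨h', mem_univ _, h.2⟩
          · rintro ⟨h', -, h⟩
            exact ⟨Or.inr ⟨mem_univ _, h⟩, h'⟩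
        rw [sum_congr rfl e1, sum_comm]
        refine sum_congr rfl fun j _ => ?_
        rw [← card_filter]
        congr 1
        ext k
        rw [mem_filter]
        constructor
        · exact fun h => h.2
        · intro h
          refine ⟨?_, h⟩
          rw [hn, mem_filter] at h
          obtain ⟨-, v, hv, hr, -⟩ := h
          rw [hT, ← hr]
          exact mem_image_of_mem _ hv
      have e1 : ∀ i : I, min (Sum.elim y b (Sum.inr i)) #(univ.filter fun k => ∃ v ∈ W, r v = k ∧
          ∀ j, (Sum.inr i : P ⊕ I) = Sum.inl j → al v j = true) = min (b i) #T := by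
        intro i
        rw [hI]
        rfl
      have e2 : ∀ j : P, min (Sum.elim y b (Sum.inl j)) #(univ.filter fun k => ∃ v ∈ W, r v = k ∧
          ∀ j', (Sum.inl j : P ⊕ I) = Sum.inl j' → al v j' = true) = min (y j) #(n j) := by
        intro j
        rw [hP]
        rfl
      rw [sum_congr rfl fun i _ => e1 i, sum_congr rfl fun j _ => e2 j, ← sum_add_sum_compl A]
      have e3 : ∑ j ∈ A, min (y j) #(n j) = ∑ j ∈ A, y j := by
        refine sum_congr rfl fun j hj => ?_
        rw [hA, mem_filter] at hj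
        exact min_eq_left hj.2
      have e4 : ∑ j ∈ Aᶜ, min (y j) #(n j) = ∑ j ∈ Aᶜ, #(n j) := by
        refine sum_congr rfl fun j hj => ?_
        rw [mem_compl, hA, mem_filter] at hj
        refine min_eq_right ?_
        by_contra hc
        exact hj ⟨mem_univ _, by omega⟩
      rw [e3, e4, ← hB]
      have h5 := hW.trans key
      omega)
  refine ⟨f, ?_, h2, ?_, ?_⟩
  · intro v j hj
    exact h1 v j hj
  · intro j
    exact h3 (Sum.inl j)
  · intro i
    exact h3 (Sum.inr i)

end Pool.Agent.H784.CVHALL2
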