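import Pool.Agent.H691.MM.Grid
import Pool.Graph.R_seed8.W654.TA_F3

/-!
# Max-min area triangulations (helper691), task B1: gluing of the tiles
-/

set_option autoImplicit false

namespace Pool.Agent.H691.MM

open Pool.Agent.W982.TA Pool.Agent.H691.Geo Pool.Agent.NPC

theorem b1_std (b up : Bool) : ((stdv b up).1 = 1 ∨ (stdv b up).1 = -1) ∧
    ((stdv b up).2 = 2 ∨ (stdv b up).2 = -2) := by
  cases b <;> cases up <;> simp [stdv]

theorem b1_topx {t x : ℕ} (h : topx t = some x) : x = 9 ∨ x = 10 := by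
  unfold topx at h
  split_ifs at h <;> simp_all

theorem b1_botx {t x : ℕ} (h : botx t = some x) : x = 9 ∨ x = 10 := by
  unfold botx at h
  split_ifs at h <;> simp_all

/-- the ranges of a cell `c` with the vector `g` -/
structure b1_R (t : ℕ) (c : ℕ × ℕ) (g : Pt) : Prop where
  size : c.1 < 21 ∧ c.2 < 39
  L0 : hasL t = false → 0 ≤ (c.1 : ℤ) + g.1
  L1 : hasL t = true → c.1 < 3 → (c.2 = 20 ∨ c.2 = 21) ∧ (g.1 = 1 ∨ g.1 = -1) ∧
    (g.2 = 2 ∨ g.2 = -2)
  L2 : hasL t = true → 3 ≤ c.1 → 1 ≤ (c.1 : ℤ) + g.1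
  R1 : 18 ≤ c.1 → (c.2 = 20 ∨ c.2 = 21) ∧ (g.1 = 1 ∨ g.1 = -1) ∧ (g.2 = 2 ∨ g.2 = -2)
  R2 : c.1 < 18 → (c.1 : ℤ) + g.1 ≤ 19
  B1 : c.2 < 3 → botx t = some c.1 ∧ (c.1 = 9 ∨ c.1 = 10) ∧ (g.1 = 1 ∨ g.1 = -1) ∧
    (g.2 = 2 ∨ g.2 = -2)
  B2 : 3 ≤ c.2 → 1 ≤ (c.2 : ℤ) + g.2
  T1 : 36 ≤ c.2 → topx t = some c.1 ∧ (c.1 = 9 ∨ c.1 = 10) ∧ (g.1 = 1 ∨ g.1 = -1) ∧
    (g.2 = 2 ∨ g.2 = -2)
  T2 : c.2 < 36 → (c.2 : ℤ) + g.2 ≤ 37

theorem b1_rng {t s : ℕ} {g : ℕ → ℕ → Bool → Pt} (h : LocOK t s g) {c : ℕ × ℕ} (hc : c ∈ cells t)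
    (up : Bool) : b1_R t c (g c.1 c.2 up) where
  size := h.size c hc
  L0 := fun hl => h.left0 hl c hc up
  L1 := fun hl h3 => by
    obtain ⟨h1, h2⟩ := h.left1 hl c hc h3
    rw [h2 up]
    exact ⟨h1, b1_std _ _⟩
  L2 := fun hl h3 => h.left2 hl c hc h3 up
  R1 := fun h3 => by
    obtain ⟨h1, h2⟩ := h.right1 c hc h3
    rw [h2 up]
    exact ⟨h1, b1_std _ _⟩
  R2 := fun h3 => h.right2 c hc h3 up
  B1 := fun h3 => by
    obtain ⟨h1, h2⟩ := h.bot1 c hc h3
    rw [h2 up]
    exact ⟨h1, b1_botx h1, b1_std _ _⟩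
  B2 := fun h3 => h.bot2 c hc h3 up
  T1 := fun h3 => by
    obtain ⟨h1, h2⟩ := h.top1 c hc h3
    rw [h2 up]
    exact ⟨h1, b1_topx h1, b1_std _ _⟩
  T2 := fun h3 => h.top2 c hc h3 up

/-- the coarse ranges -/
theorem b1_R.all {t : ℕ} {c : ℕ × ℕ} {g : Pt} (h : b1_R t c g) :
    -1 ≤ (c.1 : ℤ) + g.1 ∧ (c.1 : ℤ) + g.1 ≤ 21 ∧ -2 ≤ (c.2 : ℤ) + g.2 ∧ (c.2 : ℤ) + g.2 ≤ 40 := by
  obtain ⟨s1, s2⟩ := h.size
  refine ⟨?_, ?_, ?_, ?_⟩
  · cases hl : hasL t with
    | false => have := h.L0 hl; omega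
    | true =>
      by_cases h3 : c.1 < 3
      · have := h.L1 hl h3; omega
      · have := h.L2 hl (by omega); omega
  · by_cases h3 : c.1 < 18
    · have := h.R2 h3; omega
    · have := h.R1 (by omega); omega
  · by_cases h3 : c.2 < 3
    · have := h.B1 h3; omega
    · have := h.B2 (by omega); omega
  · by_cases h3 : c.2 < 36
    · have := h.T2 h3; omega
    · have := h.T1 (by omega); omega

theorem b1_dt (v a b c : Pt) : dt (v + a) (v + b) (v + c) = dt a b c := by
  simp only [dt, Prod.fst_add, Prod.snd_add]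
  ring

theorem b1_trans (v a b c d : Pt) : PCross (v + a) (v + b) (v + c) (v + d) ↔ PCross a b c d := by
  unfold PCross
  rw [b1_dt, b1_dt, b1_dt, b1_dt]

theorem b1_symm {a b c d : Pt} (h : PCross a b c d) : PCross c d a b := ⟨h.2, h.1⟩

theorem b1_ghostR (t s : ℕ) {x y : ℕ} (hx : x < 3) (hy : y = 20 ∨ y = 21) :
    ((((21 : ℤ) + (x : ℤ)), (y : ℤ)), hsig t s) ∈ ghosts t s := by
  unfold ghosts
  interval_cases x <;> rcases hy with rfl | rfl <;> simp

theorem b1_ghostT (t s : ℕ) {x y : ℕ} (hx : topx t = some x) (hy : y < 3) :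
    (((x : ℤ), (39 : ℤ) + (y : ℤ)), vtop t s) ∈ ghosts t s := by
  unfold ghosts
  interval_cases y <;> simp [hx]

section

variable {R C : ℕ} {T S : ℕ → ℕ → ℕ} {W : Finset Pt} {f : Pt → Bool → Pt}

/-- the corner of a tile -/
def b1_o (i j : ℕ) : Pt := (21 * (j : ℤ), 39 * (i : ℤ))

theorem b1_w (i j : ℕ) (c : ℕ × ℕ) :
    ((21 * (j : ℤ) + c.1, 39 * (i : ℤ) + c.2) : Pt) = b1_o i j + cp c := rfl

theorem b1_R' (G : GridOK R C T S W f) {i j : ℕ} (hi : i < R) (hj : j < C) {c : ℕ × ℕ}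
    (hc : c ∈ cells (T i j)) (up : Bool) : b1_R (T i j) c (f (b1_o i j + cp c) up) :=
  b1_rng (G.loc i hi j hj) hc up

/-- the tiles are in the same row, in neighbouring columns -/
theorem b1_row (G : GridOK R C T S W f) {i j : ℕ} (hi : i < R) (hj : j + 1 < C)
    {c c' : ℕ × ℕ} (hc : c ∈ cells (T i j)) (hc' : c' ∈ cells (T i (j + 1))) (s s' : Bool) :
    ¬ PCross (b1_o i j + cp c) (b1_o i j + cp c + f (b1_o i j + cp c) s)
      (b1_o i (j + 1) + cp c') (b1_o i (j + 1) + cp c' + f (b1_o i (j + 1) + cp c') s') := by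
  have hA := b1_R' G hi (by omega : j < C) hc s
  have hB := b1_R' G hi hj hc' s'
  obtain ⟨hl, hsg⟩ := G.hc i hi j hj
  by_cases h1 : c.1 < 18
  · refine (f3 _ _ _ _ (21 * (j : ℤ) + 20)).1 ?_ ?_ ?_ ?_
    · simp only [b1_o, cp, Prod.fst_add]; omega
    · have := hA.R2 h1
      simp only [b1_o, cp, Prod.fst_add] at this ⊢; omega
    · simp only [b1_o, cp, Prod.fst_add]; push_cast; omega
    · have := hB.all.1
      simp only [b1_o, cp, Prod.fst_add] at this ⊢; push_cast at this ⊢; omega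
  · by_cases h2 : 3 ≤ c'.1
    · refine (f3 _ _ _ _ (21 * (j : ℤ) + 21)).1 ?_ ?_ ?_ ?_
      · have := hA.size
        simp only [b1_o, cp, Prod.fst_add]; omega
      · have := hA.all.2.1
        simp only [b1_o, cp, Prod.fst_add] at this ⊢; omega
      · simp only [b1_o, cp, Prod.fst_add]; push_cast; omega
      · have := hB.L2 hl h2
        simp only [b1_o, cp, Prod.fst_add] at this ⊢; push_cast at this ⊢; omega
    · -- a ghost
      obtain ⟨h3, h4⟩ := (G.loc i hi (j + 1) hj).left1 hl c' hc' (by omega)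
      have hq := b1_ghostR (T i j) (S i j) (x := c'.1) (y := c'.2) (by omega) h3
      have h5 := (G.loc i hi j (by omega)).disjG c hc _ hq s s'
      intro h6
      apply h5
      rw [← b1_trans (b1_o i j)]
      have e1 : b1_o i (j + 1) + cp c' = b1_o i j + ((21 : ℤ) + (c'.1 : ℤ), (c'.2 : ℤ)) := by
        ext
        · simp only [b1_o, cp, Prod.fst_add]; push_cast; ring
        · simp only [b1_o, cp, Prod.snd_add]
      have e2 : f (b1_o i (j + 1) + cp c') s' = stdv (hsig (T i j) (S i j)) s' := by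
        rw [hsg]
        exact h4 s'
      rw [e2, e1, add_assoc, add_assoc] at h6
      exact h6

/-- the lower tile is in the row `i`, the upper tile in the row `i + 1` -/
theorem b1_col (G : GridOK R C T S W f) {i j j' : ℕ} (hi : i + 1 < R) (hj : j < C) (hj' : j' < C)
    {c c' : ℕ × ℕ} (hc : c ∈ cells (T i j)) (hc' : c' ∈ cells (T (i + 1) j')) (s s' : Bool) :
    ¬ PCross (b1_o i j + cp c) (b1_o i j + cp c + f (b1_o i j + cp c) s)
      (b1_o (i + 1) j' + cp c') (b1_o (i + 1) j' + cp c' + f (b1_o (i + 1) j' + cp c') s') := by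
  have hA := b1_R' G (by omega : i < R) hj hc s
  have hB := b1_R' G hi hj' hc' s'
  by_cases h1 : c.2 < 36
  · refine (f3 _ _ _ _ (39 * (i : ℤ) + 37)).2 ?_ ?_ ?_ ?_
    · simp only [b1_o, cp, Prod.snd_add]; omega
    · have := hA.T2 h1
      simp only [b1_o, cp, Prod.snd_add] at this ⊢; omega
    · simp only [b1_o, cp, Prod.snd_add]; push_cast; omega
    · have := hB.all.2.2.1
      simp only [b1_o, cp, Prod.snd_add] at this ⊢; push_cast at this ⊢; omega
  · by_cases h2 : 3 ≤ c'.2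
    · refine (f3 _ _ _ _ (39 * (i : ℤ) + 40)).2 ?_ ?_ ?_ ?_
      · have := hA.size
        simp only [b1_o, cp, Prod.snd_add]; omega
      · have := hA.all.2.2.2
        simp only [b1_o, cp, Prod.snd_add] at this ⊢; omega
      · simp only [b1_o, cp, Prod.snd_add]; push_cast; omega
      · have := hB.B2 h2
        simp only [b1_o, cp, Prod.snd_add] at this ⊢; push_cast at this ⊢; omega
    · obtain ⟨a1, a2, a3, a4⟩ := hA.T1 (by omega)
      obtain ⟨b1, b2, b3, b4⟩ := hB.B1 (by omega)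
      rcases lt_trichotomy j j' with hjj | hjj | hjj
      · refine (f3 _ _ _ _ (21 * (j : ℤ) + 11)).1 ?_ ?_ ?_ ?_
        · simp only [b1_o, cp, Prod.fst_add]; omega
        · simp only [b1_o, cp, Prod.fst_add] at a3 ⊢; omega
        · simp only [b1_o, cp, Prod.fst_add]; omega
        · simp only [b1_o, cp, Prod.fst_add] at b3 ⊢; omega
      · subst hjj
        obtain ⟨h3, h4⟩ := (G.loc (i + 1) hi j hj').bot1 c' hc' (by omega)
        obtain ⟨v1, v2⟩ := G.vc i hi j hj
        have h7 : topx (T i j) = some c'.1 := by rw [v1, h3]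
        have hq := b1_ghostT (T i j) (S i j) (x := c'.1) (y := c'.2) h7 (by omega)
        have h5 := (G.loc i (by omega) j hj).disjG c hc _ hq s s'
        intro h6
        apply h5
        rw [← b1_trans (b1_o i j)]
        have e1 : b1_o (i + 1) j + cp c' = b1_o i j + ((c'.1 : ℤ), (39 : ℤ) + (c'.2 : ℤ)) := by
          ext
          · simp only [b1_o, cp, Prod.fst_add]
          · simp only [b1_o, cp, Prod.snd_add]; push_cast; ring
        have e2 : f (b1_o (i + 1) j + cp c') s' = stdv (vtop (T i j) (S i j)) s' := by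
          rw [v2 (by rw [h7]; simp)]
          exact h4 s'
        rw [e2, e1, add_assoc, add_assoc] at h6
        exact h6
      · intro h6
        refine (f3 _ _ _ _ (21 * (j' : ℤ) + 11)).1 ?_ ?_ ?_ ?_ (b1_symm h6)
        · simp only [b1_o, cp, Prod.fst_add]; omega
        · simp only [b1_o, cp, Prod.fst_add] at b3 ⊢; omega
        · simp only [b1_o, cp, Prod.fst_add]; omega
        · simp only [b1_o, cp, Prod.fst_add] at a3 ⊢; omega

/-- the first tile is in a lower row, or in the same row and more to the left -/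
theorem b1_lt (G : GridOK R C T S W f) {i j i' j' : ℕ} (hi : i < R) (hj : j < C) (hi' : i' < R)
    (hj' : j' < C) (hlt : i < i' ∨ (i = i' ∧ j < j')) {c c' : ℕ × ℕ} (hc : c ∈ cells (T i j))
    (hc' : c' ∈ cells (T i' j')) (s s' : Bool) :
    ¬ PCross (b1_o i j + cp c) (b1_o i j + cp c + f (b1_o i j + cp c) s)
      (b1_o i' j' + cp c') (b1_o i' j' + cp c' + f (b1_o i' j' + cp c') s') := by
  have hA := b1_R' G hi hj hc s
  have hB := b1_R' G hi' hj' hc' s'
  obtain ⟨A1, A2, A3, A4⟩ := hA.all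
  obtain ⟨B1, B2, B3, B4⟩ := hB.all
  obtain ⟨sA1, sA2⟩ := hA.size
  obtain ⟨sB1, sB2⟩ := hB.size
  rcases hlt with hlt | ⟨rfl, hlt⟩
  · rcases (Nat.succ_le_of_lt hlt).eq_or_lt with h | h
    · have h' : i' = i + 1 := h.symm
      subst h'
      exact b1_col G hi' hj hj' hc hc' s s'
    · have h' : i + 2 ≤ i' := h
      refine (f3 _ _ _ _ (39 * (i : ℤ) + 41)).2 ?_ ?_ ?_ ?_
      · simp only [b1_o, cp, Prod.snd_add]; omega
      · simp only [b1_o, cp, Prod.snd_add] at A4 ⊢; omega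
      · simp only [b1_o, cp, Prod.snd_add]; omega
      · simp only [b1_o, cp, Prod.snd_add] at B3 ⊢; omega
  · rcases (Nat.succ_le_of_lt hlt).eq_or_lt with h | h
    · have h' : j' = j + 1 := h.symm
      subst h'
      exact b1_row G hi hj' hc hc' s s'
    · have h' : j + 2 ≤ j' := h
      refine (f3 _ _ _ _ (21 * (j : ℤ) + 22)).1 ?_ ?_ ?_ ?_
      · simp only [b1_o, cp, Prod.fst_add]; omega
      · simp only [b1_o, cp, Prod.fst_add] at A2 ⊢; omega
      · simp only [b1_o, cp, Prod.fst_add]; omega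
      · simp only [b1_o, cp, Prod.fst_add] at B1 ⊢; omega

theorem b1_disj (G : GridOK R C T S W f) {i j i' j' : ℕ} (hi : i < R) (hj : j < C) (hi' : i' < R)
    (hj' : j' < C) {c c' : ℕ × ℕ} (hc : c ∈ cells (T i j))
    (hc' : c' ∈ cells (T i' j')) (s s' : Bool) :
    ¬ PCross (b1_o i j + cp c) (b1_o i j + cp c + f (b1_o i j + cp c) s)
      (b1_o i' j' + cp c') (b1_o i' j' + cp c' + f (b1_o i' j' + cp c') s') := by
  rcases lt_trichotomy i i' with h | h | h
  · exact b1_lt G hi hj hi' hj' (Or.inl h) hc hc' s s'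
  · subst h
    rcases lt_trichotomy j j' with h | h | h
    · exact b1_lt G hi hj hi' hj' (Or.inr ⟨rfl, h⟩) hc hc' s s'
    · subst h
      rw [add_assoc, add_assoc, b1_trans]
      exact (G.loc i hi j hj).disjO c hc c' hc' s s'
    · exact fun h6 => b1_lt G hi' hj' hi hj (Or.inr ⟨rfl, h⟩) hc' hc s' s (b1_symm h6)
  · exact fun h6 => b1_lt G hi' hj' hi hj (Or.inl h) hc' hc s' s (b1_symm h6)

/-- a margin cell on the left side is in a tile with a left port and in rows 20, 21 -/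
theorem b1_nsp (G : GridOK R C T S W f) {i j i' j' : ℕ} (hi : i < R) (hj : j < C) (hi' : i' < R)
    (hj' : j' < C) {c c' : ℕ × ℕ} (hc : c ∈ cells (T i j))
    (hc' : c' ∈ cells (T i' j')) (s : Bool) :
    b1_o i j + cp c + f (b1_o i j + cp c) s ≠ b1_o i' j' + cp c' := by
  intro heq
  have hA := b1_R' G hi hj hc s
  have hB := b1_R' G hi' hj' hc' s
  obtain ⟨A1, A2, A3, A4⟩ := hA.all
  obtain ⟨sA1, sA2⟩ := hA.size
  obtain ⟨sB1, sB2⟩ := hB.size
  have ex : 21 * (j : ℤ) + c.1 + (f (b1_o i j + cp c) s).1 = 21 * (j' : ℤ) + c'.1 := by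
    have := congrArg Prod.fst heq
    simpa only [b1_o, cp, Prod.fst_add] using this
  have ey : 39 * (i : ℤ) + c.2 + (f (b1_o i j + cp c) s).2 = 39 * (i' : ℤ) + c'.2 := by
    have := congrArg Prod.snd heq
    simpa only [b1_o, cp, Prod.snd_add] using this
  obtain ⟨g, hg⟩ : ∃ g, g = f (b1_o i j + cp c) s := ⟨_, rfl⟩
  by_cases hij : i' = i ∧ j' = j
  · obtain ⟨rfl, rfl⟩ := hij
    rw [add_assoc] at heq
    exact (G.loc i' hi j' hj).nspO c hc s c' hc' (add_left_cancel heq)
  rw [← hg] at hA A1 A2 A3 A4 ex ey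
  by_cases hjj : j' = j
  · subst hjj
    have hii : i' ≠ i := fun h => hij ⟨h, rfl⟩
    rcases lt_or_gt_of_ne hii with h | h
    · -- the lower neighbour
      have h1 : i = i' + 1 := by omega
      subst h1
      have h2 : 36 ≤ c'.2 := by push_cast at ey; omega
      have h3 : c.2 < 3 := by
        by_contra h3
        have := hA.B2 (by omega)
        push_cast at ey
        omega
      obtain ⟨t1, -⟩ := hB.T1 h2
      obtain ⟨b1, -, b3, -⟩ := hA.B1 h3
      have hv := (G.vc i' hi j' hj).1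
      rw [t1, b1] at hv
      have h4 : c'.1 = c.1 := Option.some.inj hv
      omega
    · have h1 : i' = i + 1 := by omega
      subst h1
      have h2 : c'.2 < 3 := by push_cast at ey; omega
      have h3 : 36 ≤ c.2 := by
        by_contra h3
        have := hA.T2 (by omega)
        push_cast at ey
        omega
      obtain ⟨t1, -, t3, -⟩ := hA.T1 h3
      obtain ⟨b1, -⟩ := hB.B1 h2
      have hv := (G.vc i hi' j' hj).1
      rw [t1, b1] at hv
      have h4 : c.1 = c'.1 := Option.some.inj hv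
      omega
  · rcases lt_or_gt_of_ne hjj with h | h
    · -- the left neighbour
      have h1 : j = j' + 1 := by omega
      subst h1
      have hl := (G.hc i hi j' hj).1
      have h2 : 18 ≤ c'.1 := by push_cast at ex; omega
      have h3 : c.1 < 3 := by
        by_contra h3
        have := hA.L2 hl (by omega)
        push_cast at ex
        omega
      obtain ⟨l1, l2, l3⟩ := hA.L1 hl h3
      obtain ⟨r1, -⟩ := hB.R1 h2
      omega
    · have h1 : j' = j + 1 := by omega
      subst h1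
      have h3 : 18 ≤ c.1 := by
        by_contra h3
        have := hA.R2 (by omega)
        push_cast at ex
        omega
      obtain ⟨l1, l2, l3⟩ := hA.R1 h3
      have hii : i' = i := by omega
      subst hii
      have hl := (G.hc i' hi j hj').1
      have h2 : c'.1 < 3 := by push_cast at ex; omega
      obtain ⟨r1, -⟩ := hB.L1 hl h2
      omega

end

theorem b1 : TaskB1 := by
  intro R C T S W f G
  refine ⟨⟨?_, ?_, ?_, ?_, ?_⟩, ?_⟩
  · intro w hw s
    obtain ⟨i, hi, j, hj, c, hc, rfl⟩ := (G.mem w).1 hw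
    exact (G.loc i hi j hj).prim c hc s
  · intro w hw
    obtain ⟨i, hi, j, hj, c, hc, rfl⟩ := (G.mem w).1 hw
    exact (G.loc i hi j hj).up c hc
  · intro w hw
    obtain ⟨i, hi, j, hj, c, hc, rfl⟩ := (G.mem w).1 hw
    exact (G.loc i hi j hj).down c hc
  · intro w hw s
    obtain ⟨i, hi, j, hj, c, hc, rfl⟩ := (G.mem w).1 hw
    rw [b1_w]
    have hA := b1_R' G hi hj hc s
    obtain ⟨A1, A2, A3, A4⟩ := hA.all
    have hx : 0 ≤ 21 * (j : ℤ) + c.1 + (f (b1_o i j + cp c) s).1 := by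
      rcases Nat.eq_zero_or_pos j with h | h
      · subst h
        have := hA.L0 (G.l0 i hi)
        push_cast
        omega
      · omega
    have hy : 0 ≤ 39 * (i : ℤ) + c.2 + (f (b1_o i j + cp c) s).2 := by
      rcases Nat.eq_zero_or_pos i with h | h
      · subst h
        by_cases h3 : c.2 < 3
        · have h4 := (hA.B1 h3).1
          rw [G.b0 j hj] at h4
          exact absurd h4 (by simp)
        · have := hA.B2 (by omega)
          push_cast
          omega
      · omega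
    have hy' : 39 * (i : ℤ) + c.2 + (f (b1_o i j + cp c) s).2 ≤ 39 * (R : ℤ) := by
      by_cases h3 : c.2 < 36
      · have := hA.T2 h3
        omega
      · have h4 := (hA.T1 (by omega)).1
        have h5 : i ≠ R - 1 := by
          rintro rfl
          rw [G.t0 j hj] at h4
          exact absurd h4 (by simp)
        omega
    unfold box
    rw [Finset.mem_product, Finset.mem_Icc, Finset.mem_Icc]
    simp only [b1_o, cp, Prod.fst_add, Prod.snd_add] at *
    omega
  · intro w hw s w' hw' s'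
    obtain ⟨i, hi, j, hj, c, hc, rfl⟩ := (G.mem w).1 hw
    obtain ⟨i', hi', j', hj', c', hc', rfl⟩ := (G.mem w').1 hw'
    exact b1_disj G hi hj hi' hj' hc hc' s s'
  · intro w hw s hm
    obtain ⟨i, hi, j, hj, c, hc, rfl⟩ := (G.mem w).1 hw
    obtain ⟨i', hi', j', hj', c', hc', h⟩ := (G.mem _).1 hm
    exact b1_nsp G hi hj hi' hj' hc hc' s h

end Pool.Agent.H691.MM
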