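import Pool.Agent.H770.GS.TB

/-!
# Project TB, TB7: assembly of the convex minorant from `S_d1` and `S_d2`
-/

set_option autoImplicit false

open MeasureTheory Set intervalIntegral Filter Topology

namespace Pool.Agent.H784.TBdelta

open Pool.Agent.H770.GS

/-- the difference of the integrands, without the truncation -/
noncomputable def EE (r s1 s2 y : ℝ) : ℝ :=
  Real.sqrt (2 + s2) * fL r (Real.sqrt s2 * y) - Real.sqrt (2 + s1) * fL r (Real.sqrt s1 * y)

theorem EE_cont (r s1 s2 : ℝ) : Continuous (EE r s1 s2) := by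
  unfold EE
  have h := fL_cont r
  exact (continuous_const.mul (h.comp (continuous_const.mul continuous_id))).sub
    (continuous_const.mul (h.comp (continuous_const.mul continuous_id)))

theorem EE_deriv (r s1 s2 y : ℝ) : HasDerivAt (EE r s1 s2)
    (Real.sqrt (2 + s2) * (-nL r (Real.sqrt s2 * y) * Real.sqrt s2) -
      Real.sqrt (2 + s1) * (-nL r (Real.sqrt s1 * y) * Real.sqrt s1)) y := by
  have hm : ∀ s : ℝ, HasDerivAt (fun y : ℝ => Real.sqrt s * y) (Real.sqrt s) y := by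
    intro s
    have h := (hasDerivAt_id y).const_mul (Real.sqrt s)
    rw [mul_one] at h
    exact h
  have h1 : HasDerivAt (fun y : ℝ => fL r (Real.sqrt s1 * y))
      (-nL r (Real.sqrt s1 * y) * Real.sqrt s1) y :=
    (fL_deriv r (Real.sqrt s1 * y)).comp y (hm s1)
  have h2 : HasDerivAt (fun y : ℝ => fL r (Real.sqrt s2 * y))
      (-nL r (Real.sqrt s2 * y) * Real.sqrt s2) y :=
    (fL_deriv r (Real.sqrt s2 * y)).comp y (hm s2)
  exact (h2.const_mul _).sub (h1.const_mul _)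

theorem pt_eq {r s z : ℝ} (hs1 : s ≤ 1) (hz : |z| ≤ r) :
    pt r (Real.sqrt s * z) = fL r (Real.sqrt s * |z|) := by
  have h1 : |Real.sqrt s * z| = Real.sqrt s * |z| := by
    rw [abs_mul, abs_of_nonneg (Real.sqrt_nonneg s)]
  have h2 : Real.sqrt s ≤ 1 := Real.sqrt_le_one.mpr hs1
  have h3 : 0 ≤ |z| := abs_nonneg z
  have h4 : Real.sqrt s * |z| ≤ 2 * r := by nlinarith
  unfold pt
  rw [h1, max_eq_left (fL_nonneg h4)]

theorem dD_eq {r s1 s2 z : ℝ} (h1 : s1 ≤ 1) (h2 : s2 ≤ 1) (hz : |z| ≤ r) :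
    dD r s1 s2 z = EE r s1 s2 |z| := by
  unfold dD EE
  rw [pt_eq h1 hz, pt_eq h2 hz]

theorem dD_abs (r s1 s2 z : ℝ) : dD r s1 s2 |z| = dD r s1 s2 z := by
  unfold dD pt
  simp only [abs_mul, abs_abs]

/-- the minorant as a function of `w = z²` -/
noncomputable def psi (r s1 s2 w : ℝ) : ℝ :=
  if w ≤ r ^ 2 then EE r s1 s2 (Real.sqrt w) else EE r s1 s2 r + dm r s1 s2 r * (w - r ^ 2)

theorem psi_cont {r : ℝ} (hr : 0 < r) (s1 s2 : ℝ) : Continuous (psi r s1 s2) := by
  unfold psi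
  refine Continuous.if_le ((EE_cont r s1 s2).comp Real.continuous_sqrt) ?_ continuous_id
    continuous_const ?_
  · exact continuous_const.add (continuous_const.mul (continuous_id.sub continuous_const))
  · intro w hw
    change w = r ^ 2 at hw
    rw [hw, Real.sqrt_sq hr.le, sub_self, mul_zero, add_zero]

theorem psi_left {r s1 s2 w : ℝ} (hw : w ≤ r ^ 2) :
    psi r s1 s2 w = EE r s1 s2 (Real.sqrt w) := if_pos hw

theorem psi_right {r s1 s2 w : ℝ} (hr : 0 < r) (hw : r ^ 2 ≤ w) :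
    psi r s1 s2 w = EE r s1 s2 r + dm r s1 s2 r * (w - r ^ 2) := by
  rcases hw.lt_or_eq with h | h
  · exact if_neg (not_le.mpr h)
  · rw [psi_left h.ge, ← h, Real.sqrt_sq hr.le, sub_self, mul_zero, add_zero]

theorem left_deriv (r s1 s2 : ℝ) {w : ℝ} (hw : 0 < w) :
    HasDerivAt (fun w => EE r s1 s2 (Real.sqrt w)) (dm r s1 s2 (Real.sqrt w)) w := by
  have h1 := (EE_deriv r s1 s2 (Real.sqrt w)).comp w (Real.hasDerivAt_sqrt hw.ne')
  refine HasDerivAt.congr_deriv h1 ?_
  have h2 : Real.sqrt w ≠ 0 := (Real.sqrt_pos.mpr hw).ne'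
  unfold dm
  field_simp
  ring

theorem right_deriv (r s1 s2 w : ℝ) :
    HasDerivAt (fun w => EE r s1 s2 r + dm r s1 s2 r * (w - r ^ 2)) (dm r s1 s2 r) w := by
  have h1 := (((hasDerivAt_id w).sub_const (r ^ 2)).const_mul (dm r s1 s2 r)).const_add
    (EE r s1 s2 r)
  rw [mul_one] at h1
  exact h1

theorem psi_deriv {r : ℝ} (hr : 0 < r) (s1 s2 : ℝ) {w : ℝ} (hw : 0 < w) :
    HasDerivAt (psi r s1 s2) (dm r s1 s2 (min (Real.sqrt w) r)) w := by
  rcases lt_trichotomy w (r ^ 2) with h | h | h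
  · have h1 : Real.sqrt w ≤ r := Real.sqrt_le_iff.mpr ⟨hr.le, h.le⟩
    rw [min_eq_left h1]
    refine (left_deriv r s1 s2 hw).congr_of_eventuallyEq ?_
    filter_upwards [Iio_mem_nhds h] with x hx
    exact psi_left (le_of_lt hx)
  · have h1 : Real.sqrt w = r := by rw [h, Real.sqrt_sq hr.le]
    have h2 := left_deriv r s1 s2 hw
    have h3 := right_deriv r s1 s2 w
    rw [h1] at h2
    rw [h1, min_self]
    have h4 : HasDerivWithinAt (psi r s1 s2) (dm r s1 s2 r) (Iic w) w :=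
      h2.hasDerivWithinAt.congr (fun x hx => psi_left (hx.trans h.le)) (psi_left h.le)
    have h5 : HasDerivWithinAt (psi r s1 s2) (dm r s1 s2 r) (Ici w) w :=
      h3.hasDerivWithinAt.congr (fun x hx => psi_right hr (h.ge.trans hx)) (psi_right hr h.ge)
    have h6 := h4.union h5
    rw [Iic_union_Ici, hasDerivWithinAt_univ] at h6
    exact h6
  · have h1 : r ≤ Real.sqrt w := Real.le_sqrt_of_sq_le h.le
    rw [min_eq_right h1]
    refine (right_deriv r s1 s2 w).congr_of_eventuallyEq ?_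
    filter_upwards [Ioi_mem_nhds h] with x hx
    exact psi_right hr (le_of_lt hx)

/-- **TB7** -/
theorem delta : S_delta := by
  intro hS hd1 hd2 r s1 s2 hr hr2 hs1 hs12 hs2
  have hs1' : s1 ≤ 1 := hs12.le.trans hs2
  refine ⟨fun z => psi r s1 s2 (z ^ 2), (psi_cont hr s1 s2).comp (continuous_pow 2), ?_, ?_, ?_, ?_⟩
  · intro x
    change psi r s1 s2 ((-x) ^ 2) = psi r s1 s2 (x ^ 2)
    rw [neg_sq]
  · have hc : ConvexOn ℝ (Ici 0) (psi r s1 s2) := by
      refine MonotoneOn.convexOn_of_deriv (convex_Ici 0) (psi_cont hr s1 s2).continuousOn ?_ ?_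
      · rw [interior_Ici]
        exact fun w hw => (psi_deriv hr s1 s2 hw).differentiableAt.differentiableWithinAt
      · rw [interior_Ici]
        intro w1 hw1 w2 hw2 h12
        rw [(psi_deriv hr s1 s2 hw1).deriv, (psi_deriv hr s1 s2 hw2).deriv]
        exact hd1 hS r s1 s2 hr hr2 hs1 hs12 hs2 _ _ (lt_min (Real.sqrt_pos.mpr hw1) hr)
          (min_le_min_right r (Real.sqrt_le_sqrt h12)) (min_le_right _ _)
    refine hc.congr (fun w hw => ?_)
    change psi r s1 s2 w = psi r s1 s2 (Real.sqrt w ^ 2)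
    rw [Real.sq_sqrt hw]
  · intro z
    change psi r s1 s2 (z ^ 2) ≤ dD r s1 s2 z
    rcases le_total |z| r with h | h
    · have h1 : z ^ 2 ≤ r ^ 2 := by
        rw [← sq_abs z]
        exact pow_le_pow_left₀ (abs_nonneg z) h 2
      rw [psi_left h1, Real.sqrt_sq_eq_abs, dD_eq hs1' hs2 h]
    · have h1 : r ^ 2 ≤ z ^ 2 := by
        rw [← sq_abs z]
        exact pow_le_pow_left₀ hr.le h 2
      have h2 := hd2 hS r s1 s2 hr hr2 hs1 hs12 hs2 |z| h
      have h3 : dD r s1 s2 r = EE r s1 s2 r := by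
        have h4 := dD_eq (r := r) (z := r) hs1' hs2 (abs_of_pos hr).le
        rw [abs_of_pos hr] at h4
        exact h4
      rw [psi_right hr h1, ← h3, ← dD_abs r s1 s2 z]
      rw [sq_abs] at h2
      exact h2
  · intro z hz
    change psi r s1 s2 (z ^ 2) = dD r s1 s2 z
    have h : |z| ≤ r := abs_le.mpr hz
    have h1 : z ^ 2 ≤ r ^ 2 := by
      rw [← sq_abs z]
      exact pow_le_pow_left₀ (abs_nonneg z) h 2
    rw [psi_left h1, Real.sqrt_sq_eq_abs, dD_eq hs1' hs2 h]

end Pool.Agent.H784.TBdelta
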