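import Pool.Agent.H812.SF.Stm4

/-! # Project SF (helper812): the dynamical lemma with explicit constants (DYN2) -/

set_option autoImplicit false

open Set Filter Topology MeasureTheory

namespace Pool.Agent.H784.SfDYN2

open Pool.Agent.N229.SC Pool.Agent.H812.SF

theorem proof_DYN2 (h1 : S_BLK) (h2 : S_SCH2) : S_DYN2 := by
  intro φ ε hφ hφ0 hε hε1 L hL c x M hc0 hx hne
  obtain ⟨δ, hδ⟩ : ∃ δ : ℝ, δ = ε / 10 ^ 4 := ⟨_, rfl⟩
  rw [← hδ] at hc0
  have hδ0 : 0 < δ := by rw [hδ]; positivity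
  have hδ1 : δ ≤ 1 / 10 ^ 4 := by
    rw [hδ]
    exact div_le_div_of_nonneg_right (by linarith) (by positivity)
  obtain ⟨N, hN⟩ : ∃ N : ℕ, N = ⌈10 / δ⌉₊ + 3 := ⟨_, rfl⟩
  have hNL : 5 * N + 5 ≤ L := by
    have e1 : 10 / δ = 10 ^ 5 * (1 / ε) := by
      rw [hδ]
      field_simp
    have e2 : (10 : ℝ) ^ 6 / ε = 10 ^ 6 * (1 / ε) := by ring
    have e3 : (10 : ℝ) ≤ 1 / ε := by
      rw [le_div_iff₀ hε]
      linarith
    have e4 : ((⌈10 / δ⌉₊ : ℕ) : ℝ) < 10 / δ + 1 := Nat.ceil_lt_add_one (by positivity)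
    have e5 : ((5 * N + 5 : ℕ) : ℝ) ≤ (L : ℝ) := by
      rw [hN]
      push_cast
      rw [e1] at e4
      rw [e2] at hL
      rw [e1]
      linarith
    exact_mod_cast e5
  have hc : ∀ m, M ≤ m → m ≤ M + (5 * N + 5) → φ + δ ≤ c m ∧ c m ≤ φ + 2 * δ :=
    fun m h h' => hc0 m h (by omega)
  have hs : ∀ j : ℕ, ((-1 : ℝ) ^ j) * ((-1 : ℝ) ^ j) = 1 := by
    intro j
    rw [← mul_pow]
    norm_num
  have hs0 : ∀ j : ℕ, ((-1 : ℝ) ^ j) ≠ 0 := fun j => pow_ne_zero _ (by norm_num)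
  have habs : ∀ j : ℕ, |((-1 : ℝ) ^ j)| = 1 := by
    intro j
    rw [abs_pow, abs_neg, abs_one, one_pow]
  have hm : ∀ (j : ℕ) (t : ℝ), |((-1 : ℝ) ^ j) * t| = |t| := by
    intro j t
    rw [abs_mul, habs, one_mul]
  have key := h2 ε δ N (fun j => (-1) ^ j * x (M + 5 * j)) (fun j => (-1) ^ j * x (M + 5 * j + 1))
    hε hε1 hδ0 (by rw [hδ]; linarith)
    (by
      rw [hN]
      push_cast
      have := Nat.le_ceil (10 / δ)
      linarith)
    (by
      rcases hne with h | h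
      · left
        show (-1 : ℝ) ^ 0 * x (M + 5 * 0) ≠ 0
        rw [pow_zero, one_mul]
        exact h
      · right
        show (-1 : ℝ) ^ 0 * x (M + 5 * 0 + 1) ≠ 0
        rw [pow_zero, one_mul]
        exact h)
    (by
      intro j hj
      obtain ⟨k1, k2, k3⟩ := h1 φ δ (fun i => c (M + 5 * j + i)) (fun i => x (M + 5 * j + i)) hφ hφ0 hδ0 hδ1
        (fun i hi => hc _ (by omega) (by omega))
        (fun i _ => by
          show x (M + 5 * j + (i + 2)) = c (M + 5 * j + i) * x (M + 5 * j + (i + 1)) - x (M + 5 * j + i)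
          exact hx (M + 5 * j + i))
      have e5 : M + 5 * (j + 1) = M + 5 * j + 5 := by ring
      have e6 : M + 5 * (j + 1) + 1 = M + 5 * j + 6 := by ring
      have k1' : |-(x (M + 5 * j + 5)) - x (M + 5 * j)| ≤
          100 * δ * (|x (M + 5 * j)| + |x (M + 5 * j + 1)|) := k1
      have k2' : |-(x (M + 5 * j + 6)) - x (M + 5 * j + 1)| ≤
          100 * δ * (|x (M + 5 * j)| + |x (M + 5 * j + 1)|) := k2
      have k3' : δ * (x (M + 5 * j) ^ 2 + x (M + 5 * j + 1) ^ 2) ≤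
          x (M + 5 * j) * (-(x (M + 5 * j + 6))) - x (M + 5 * j + 1) * (-(x (M + 5 * j + 5))) := k3
      refine ⟨?_, ?_, ?_⟩
      · show |(-1) ^ (j + 1) * x (M + 5 * (j + 1)) - (-1) ^ j * x (M + 5 * j)| ≤
          100 * δ * (|(-1) ^ j * x (M + 5 * j)| + |(-1) ^ j * x (M + 5 * j + 1)|)
        rw [hm, hm, e5]
        have e : (-1 : ℝ) ^ (j + 1) * x (M + 5 * j + 5) - (-1) ^ j * x (M + 5 * j) =
            (-1) ^ j * (-(x (M + 5 * j + 5)) - x (M + 5 * j)) := by ring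
        rw [e, hm]
        exact k1'
      · show |(-1) ^ (j + 1) * x (M + 5 * (j + 1) + 1) - (-1) ^ j * x (M + 5 * j + 1)| ≤
          100 * δ * (|(-1) ^ j * x (M + 5 * j)| + |(-1) ^ j * x (M + 5 * j + 1)|)
        rw [hm, hm, e6]
        have e : (-1 : ℝ) ^ (j + 1) * x (M + 5 * j + 6) - (-1) ^ j * x (M + 5 * j + 1) =
            (-1) ^ j * (-(x (M + 5 * j + 6)) - x (M + 5 * j + 1)) := by ring
        rw [e, hm]
        exact k2'
      · show δ * (((-1) ^ j * x (M + 5 * j)) ^ 2 + ((-1) ^ j * x (M + 5 * j + 1)) ^ 2) ≤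
          (-1) ^ j * x (M + 5 * j) * ((-1) ^ (j + 1) * x (M + 5 * (j + 1) + 1)) -
            (-1) ^ j * x (M + 5 * j + 1) * ((-1) ^ (j + 1) * x (M + 5 * (j + 1)))
        rw [e6, e5]
        have ea : δ * (((-1) ^ j * x (M + 5 * j)) ^ 2 + ((-1) ^ j * x (M + 5 * j + 1)) ^ 2) =
            ((-1) ^ j * (-1) ^ j) * (δ * (x (M + 5 * j) ^ 2 + x (M + 5 * j + 1) ^ 2)) := by ring
        have eb : (-1) ^ j * x (M + 5 * j) * ((-1) ^ (j + 1) * x (M + 5 * j + 6)) -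
            (-1) ^ j * x (M + 5 * j + 1) * ((-1) ^ (j + 1) * x (M + 5 * j + 5)) =
            ((-1) ^ j * (-1) ^ j) * (x (M + 5 * j) * (-(x (M + 5 * j + 6))) -
              x (M + 5 * j + 1) * (-(x (M + 5 * j + 5)))) := by ring
        rw [ea, eb, hs, one_mul, one_mul]
        exact k3')
  obtain ⟨j, hj, hb, hl, hu⟩ := key
  have hb' : x (M + 5 * j + 1) ≠ 0 := by
    intro h0
    apply hb
    show (-1) ^ j * x (M + 5 * j + 1) = 0
    rw [h0, mul_zero]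
  have hq : ((-1) ^ j * x (M + 5 * j)) / ((-1) ^ j * x (M + 5 * j + 1)) =
      x (M + 5 * j) / x (M + 5 * j + 1) := mul_div_mul_left _ _ (hs0 j)
  have hl' : ε ≤ -(((-1) ^ j * x (M + 5 * j)) / ((-1) ^ j * x (M + 5 * j + 1))) := hl
  have hu' : -(((-1) ^ j * x (M + 5 * j)) / ((-1) ^ j * x (M + 5 * j + 1))) ≤ 3 * ε := hu
  rw [hq] at hl' hu'
  exact ⟨M + 5 * j, by omega, by omega, hb', hl', hu'⟩

end Pool.Agent.H784.SfDYN2
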